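import Mathlib

/-! Exterior algebra in coordinates: basis, integer-indexed graded pieces, graded commutativity. -/

open Finset Module

namespace R687.GE

/-- `V_n = K^n` -/
def Vec (K : Type*) (n : ℕ) : Type _ := Fin n → K

instance (K : Type*) [Field K] (n : ℕ) : AddCommGroup (Vec K n) :=
  inferInstanceAs (AddCommGroup (Fin n → K))

instance (K : Type*) [Field K] (n : ℕ) : Module K (Vec K n) :=
  inferInstanceAs (Module K (Fin n → K))

/-- the standard basis of `V_n` -/
noncomputable def vb (K : Type*) [Field K] (n : ℕ) : Basis (Fin n) K (Vec K n) :=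
  Pi.basisFun K (Fin n)

instance (K : Type*) [Field K] (n : ℕ) : Module.Finite K (Vec K n) := Module.Finite.of_basis (vb K n)

instance (K : Type*) [Field K] (n : ℕ) : Module.Free K (Vec K n) := Module.Free.of_basis (vb K n)

namespace Raw

/-- The exterior algebra of `V_n`. -/
abbrev E (K : Type*) [Field K] (n : ℕ) := ExteriorAlgebra K (Vec K n)

variable {K : Type*} [Field K] {n : ℕ}

variable (K n) in
/-- The monomial basis. -/
noncomputable def e : Basis (Finset (Fin n)) K (E K n) := (vb K n).ExteriorAlgebra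

lemma e_eq {j : ℕ} (s : Set.powersetCard (Fin n) j) :
    e K n s.val = ((vb K n).exteriorPower j s : E K n) := by
  unfold e
  exact ExteriorAlgebra.basis_eq_coe_basis _ s

lemma e_mul_disj {S T : Finset (Fin n)} (h : Disjoint S T) :
    ∃ ε : K, ε * ε = 1 ∧ e K n S * e K n T = ε • e K n (S ∪ T) := by
  obtain ⟨σ, hσ⟩ : ∃ σ : ℤˣ, e K n S * e K n T = σ • e K n (S ∪ T) := by
    have := ExteriorAlgebra.basis_mul_of_disjoint (vb K n)
      (⟨S, rfl⟩ : Set.powersetCard (Fin n) S.card) (⟨T, rfl⟩ : Set.powersetCard (Fin n) T.card) h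
    rw [Set.powersetCard.coe_disjUnion, Finset.disjUnion_eq_union] at this
    exact ⟨_, this⟩
  refine ⟨((σ : ℤ) : K), ?_, ?_⟩
  · rcases Int.units_eq_one_or σ with h1 | h1 <;> rw [h1] <;> simp
  · rw [hσ, Units.smul_def, ← Int.cast_smul_eq_zsmul K]

lemma e_mul_ndisj {S T : Finset (Fin n)} (h : ¬ Disjoint S T) : e K n S * e K n T = 0 :=
  ExteriorAlgebra.basis_mul_of_not_disjoint (vb K n)
    (⟨S, rfl⟩ : Set.powersetCard (Fin n) S.card) (⟨T, rfl⟩ : Set.powersetCard (Fin n) T.card) h

/-- The graded pieces, indexed by integers. -/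
def A (K : Type*) [Field K] (n : ℕ) (j : ℤ) : Submodule K (E K n) :=
  Submodule.span K (e K n '' {S | (S.card : ℤ) = j})

lemma e_mem (S : Finset (Fin n)) : e K n S ∈ A K n S.card :=
  Submodule.subset_span ⟨S, rfl, rfl⟩

lemma e_mem' (S : Finset (Fin n)) {j : ℤ} (h : (S.card : ℤ) = j) : e K n S ∈ A K n j :=
  Submodule.subset_span ⟨S, h, rfl⟩

lemma A_nat (j : ℕ) : A K n j = ⋀[K]^j (Vec K n) := by
  have h1 : Submodule.span K (Set.range ((vb K n).exteriorPower j)) = ⊤ :=
    Basis.span_eq _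
  have h2 := congrArg (Submodule.map (⋀[K]^j (Vec K n)).subtype) h1
  rw [Submodule.map_span, Submodule.map_top, Submodule.range_subtype] at h2
  rw [← h2]
  unfold A
  congr 1
  ext x
  constructor
  · rintro ⟨S, hS, rfl⟩
    have hS' : S.card = j := by exact_mod_cast hS
    exact ⟨_, ⟨⟨S, hS'⟩, rfl⟩, (e_eq (⟨S, hS'⟩ : Set.powersetCard (Fin n) j)).symm⟩
  · rintro ⟨_, ⟨s, rfl⟩, rfl⟩
    refine ⟨s.val, ?_, e_eq s⟩
    have := s.2
    simp only [Set.mem_ofPred_eq, Nat.cast_inj]
    exact this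

lemma mem_A_iff {j : ℤ} {x : E K n} :
    x ∈ A K n j ↔ ∀ S, (S.card : ℤ) ≠ j → (e K n).repr x S = 0 := by
  unfold A
  rw [Basis.mem_span_image]
  constructor
  · intro h S hS
    by_contra h1
    exact hS (h (Finsupp.mem_support_iff.mpr h1))
  · intro h S hS
    by_contra h1
    exact (Finsupp.mem_support_iff.mp hS) (h S h1)

lemma A_neg {j : ℤ} (hj : j < 0) : A K n j = ⊥ := by
  unfold A
  rw [Submodule.span_eq_bot]
  rintro _ ⟨S, hS, rfl⟩
  exfalso
  simp only [Set.mem_ofPred_eq] at hS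
  omega

lemma A_mul {i j : ℤ} {x y : E K n} (hx : x ∈ A K n i) (hy : y ∈ A K n j) :
    x * y ∈ A K n (i + j) := by
  unfold A at hx hy
  induction hx using Submodule.span_induction with
  | zero => simp
  | add a b _ _ ha hb => rw [add_mul]; exact Submodule.add_mem _ ha hb
  | smul c a _ ha => rw [smul_mul_assoc]; exact Submodule.smul_mem _ _ ha
  | mem x hx =>
    obtain ⟨S, hS, rfl⟩ := hx
    induction hy using Submodule.span_induction with
    | zero => simp
    | add a b _ _ ha hb => rw [mul_add]; exact Submodule.add_mem _ ha hb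
    | smul c a _ ha => rw [mul_smul_comm]; exact Submodule.smul_mem _ _ ha
    | mem y hy =>
      obtain ⟨T, hT, rfl⟩ := hy
      by_cases h : Disjoint S T
      · obtain ⟨ε, _, h2⟩ := e_mul_disj (K := K) h
        rw [h2]
        refine Submodule.smul_mem _ _ (e_mem' _ ?_)
        rw [Finset.card_union_of_disjoint h]
        simp only [Set.mem_ofPred_eq] at hS hT
        push_cast
        omega
      · rw [e_mul_ndisj h]; simp

lemma iota_comm (v : Vec K n) {j : ℕ} {x : E K n} (hx : x ∈ ⋀[K]^j (Vec K n)) :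
    ExteriorAlgebra.ι K v * x = (-1 : K) ^ j • (x * ExteriorAlgebra.ι K v) := by
  induction hx using Submodule.pow_induction_on_left' with
  | algebraMap r => simp [Algebra.commutes]
  | add x y i _ _ ihx ihy => rw [mul_add, ihx, ihy, add_mul, smul_add]
  | mem_mul m hm i x hx ih =>
    obtain ⟨w, rfl⟩ := hm
    have h1 : ExteriorAlgebra.ι K v * ExteriorAlgebra.ι K w =
        - (ExteriorAlgebra.ι K w * ExteriorAlgebra.ι K v) :=
      eq_neg_of_add_eq_zero_left (ExteriorAlgebra.ι_add_mul_swap v w)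
    rw [← mul_assoc, h1, neg_mul, mul_assoc, ih, mul_smul_comm, mul_assoc, pow_succ]
    simp

lemma gcomm_nat {i j : ℕ} {x y : E K n} (hx : x ∈ ⋀[K]^i (Vec K n))
    (hy : y ∈ ⋀[K]^j (Vec K n)) : x * y = (-1 : K) ^ (i * j) • (y * x) := by
  induction hx using Submodule.pow_induction_on_left' with
  | algebraMap r => simp [Algebra.commutes]
  | add a b i _ _ iha ihb => rw [add_mul, iha, ihb, mul_add, smul_add]
  | mem_mul m hm i x hx ih =>
    obtain ⟨w, rfl⟩ := hm
    rw [mul_assoc, ih, mul_smul_comm, ← mul_assoc, iota_comm w hy, smul_mul_assoc, mul_assoc,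
      smul_smul, ← pow_add]
    congr 2
    rw [Nat.succ_eq_add_one]
    ring

lemma e_comm (S T : Finset (Fin n)) :
    e K n S * e K n T = (-1 : K) ^ (S.card * T.card) • (e K n T * e K n S) := by
  apply gcomm_nat
  · rw [← A_nat]; exact e_mem S
  · rw [← A_nat]; exact e_mem T

lemma finrank_piece (k : ℕ) : finrank K (⋀[K]^k (Vec K n)) = n.choose k := by
  rw [exteriorPower.finrank_eq, Module.finrank_eq_card_basis (vb K n), Fintype.card_fin]

lemma one_mem_piece : (1 : E K n) ∈ ⋀[K]^0 (Vec K n) :=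
  SetLike.GradedOne.one_mem (A := fun i : ℕ => ⋀[K]^i (Vec K n))

end Raw

end R687.GE
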