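import Mathlib
import Pool.Agent.R687.GE.Raw

/-! The exterior algebra of `K^n`: definition, monomial basis, graded pieces. -/

open Finset Module

namespace R687.GE

/-- The exterior algebra of `V_n = K^n` (Mathlib's `ExteriorAlgebra`). -/
def E (K : Type*) [Field K] (n : ℕ) : Type _ := ExteriorAlgebra K (Vec K n)

noncomputable instance (K : Type*) [Field K] (n : ℕ) : Ring (E K n) :=
  inferInstanceAs (Ring (ExteriorAlgebra K (Vec K n)))

noncomputable instance (K : Type*) [Field K] (n : ℕ) : Algebra K (E K n) :=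
  inferInstanceAs (Algebra K (ExteriorAlgebra K (Vec K n)))

instance (K : Type*) [Field K] (n : ℕ) : Nontrivial (E K n) :=
  inferInstanceAs (Nontrivial (ExteriorAlgebra K (Vec K n)))

/-- The graded piece `⋀^k V_n` (Mathlib's `exteriorPower`). -/
noncomputable def Piece (K : Type*) [Field K] (n k : ℕ) : Submodule K (E K n) :=
  ⋀[K]^k (Vec K n)

variable {K : Type*} [Field K] {n : ℕ}

variable (K n) in
/-- The monomial basis. -/
noncomputable def e : Basis (Finset (Fin n)) K (E K n) := Raw.e K n

lemma e_mul_disj {S T : Finset (Fin n)} (h : Disjoint S T) :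
    ∃ ε : K, ε * ε = 1 ∧ e K n S * e K n T = ε • e K n (S ∪ T) :=
  Raw.e_mul_disj h

lemma e_mul_ndisj {S T : Finset (Fin n)} (h : ¬ Disjoint S T) : e K n S * e K n T = 0 :=
  Raw.e_mul_ndisj h

lemma e_comm (S T : Finset (Fin n)) :
    e K n S * e K n T = (-1 : K) ^ (S.card * T.card) • (e K n T * e K n S) :=
  Raw.e_comm S T

/-- The graded pieces, indexed by integers. -/
noncomputable def A (K : Type*) [Field K] (n : ℕ) (j : ℤ) : Submodule K (E K n) :=
  Submodule.span K (e K n '' {S | (S.card : ℤ) = j})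

lemma A_nat (j : ℕ) : A K n j = Piece K n j := Raw.A_nat j

lemma gcomm_nat {i j : ℕ} {x y : E K n} (hx : x ∈ Piece K n i)
    (hy : y ∈ Piece K n j) : x * y = (-1 : K) ^ (i * j) • (y * x) :=
  Raw.gcomm_nat hx hy

lemma finrank_piece (k : ℕ) : finrank K (Piece K n k) = n.choose k := Raw.finrank_piece k

lemma one_mem_piece : (1 : E K n) ∈ Piece K n 0 := Raw.one_mem_piece

lemma e_mem (S : Finset (Fin n)) : e K n S ∈ A K n S.card :=
  Submodule.subset_span ⟨S, rfl, rfl⟩

lemma e_mem' (S : Finset (Fin n)) {j : ℤ} (h : (S.card : ℤ) = j) : e K n S ∈ A K n j :=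
  Submodule.subset_span ⟨S, h, rfl⟩

lemma A_neg {j : ℤ} (hj : j < 0) : A K n j = ⊥ := by
  unfold A
  rw [Submodule.span_eq_bot]
  rintro _ ⟨S, hS, rfl⟩
  exfalso
  simp only [Set.mem_ofPred_eq] at hS
  omega

lemma A_mul {i j : ℤ} {x y : E K n} (hx : x ∈ A K n i) (hy : y ∈ A K n j) :
    x * y ∈ A K n (i + j) := by
  unfold A at hx hy
  induction hx using Submodule.span_induction with
  | zero => simp
  | add a b _ _ ha hb => rw [add_mul]; exact Submodule.add_mem _ ha hb
  | smul c a _ ha => rw [smul_mul_assoc]; exact Submodule.smul_mem _ _ ha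
  | mem x hx =>
    obtain ⟨S, hS, rfl⟩ := hx
    induction hy using Submodule.span_induction with
    | zero => simp
    | add a b _ _ ha hb => rw [mul_add]; exact Submodule.add_mem _ ha hb
    | smul c a _ ha => rw [mul_smul_comm]; exact Submodule.smul_mem _ _ ha
    | mem y hy =>
      obtain ⟨T, hT, rfl⟩ := hy
      by_cases h : Disjoint S T
      · obtain ⟨ε, _, h2⟩ := e_mul_disj (K := K) h
        rw [h2]
        refine Submodule.smul_mem _ _ (e_mem' _ ?_)
        rw [Finset.card_union_of_disjoint h]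
        simp only [Set.mem_ofPred_eq] at hS hT
        push_cast
        omega
      · rw [e_mul_ndisj h]; simp

end R687.GE
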