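import Mathlib

/-! Coefficientwise comparison of integer power series. -/

open Finset PowerSeries

namespace R687.GE

/-- the factor of the expected series: `1 - t^d` for even `d`, `(1 + t^d)⁻¹` for odd `d` -/
noncomputable def Pfac (d : ℕ) : PowerSeries ℤ :=
  if Even d then 1 - X ^ d else invOfUnit (1 + X ^ d) 1

/-- its inverse -/
noncomputable def Afac (d : ℕ) : PowerSeries ℤ :=
  if Even d then invOfUnit (1 - X ^ d) 1 else 1 + X ^ d

lemma const_even {d : ℕ} (hd : 1 ≤ d) :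
    constantCoeff (1 - X ^ d : PowerSeries ℤ) = ((1 : ℤˣ) : ℤ) := by
  simp [show d ≠ 0 by omega]

lemma const_odd {d : ℕ} (hd : 1 ≤ d) :
    constantCoeff (1 + X ^ d : PowerSeries ℤ) = ((1 : ℤˣ) : ℤ) := by
  simp [show d ≠ 0 by omega]

lemma Afac_mul_Pfac {d : ℕ} (hd : 1 ≤ d) : Afac d * Pfac d = 1 := by
  unfold Afac Pfac
  split_ifs with h
  · rw [mul_comm]; exact mul_invOfUnit _ _ (const_even hd)
  · exact mul_invOfUnit _ _ (const_odd hd)

lemma Afac_nonneg {d : ℕ} (hd : 1 ≤ d) (j : ℕ) : 0 ≤ coeff j (Afac d) := by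
  unfold Afac
  split_ifs with h
  · set B : PowerSeries ℤ := invOfUnit (1 - X ^ d) 1 with hB
    have h1 : (1 - X ^ d) * B = 1 := mul_invOfUnit _ _ (const_even hd)
    have h2 : B = 1 + X ^ d * B := by linear_combination h1
    induction j using Nat.strong_induction_on with
    | _ j ih =>
      rw [h2, map_add, coeff_X_pow_mul']
      have h3 : (0 : ℤ) ≤ coeff j (1 : PowerSeries ℤ) := by
        rw [coeff_one]; split_ifs <;> simp
      split_ifs with h4
      · have := ih (j - d) (by omega)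
        linarith
      · linarith
  · rw [map_add, coeff_one, coeff_X_pow]
    split_ifs <;> simp

/-- coefficientwise order -/
def Le (φ ψ : PowerSeries ℤ) : Prop := ∀ j, coeff j φ ≤ coeff j ψ

/-- equality up to degree `k` -/
def EqUp (k : ℕ) (φ ψ : PowerSeries ℤ) : Prop := ∀ j ≤ k, coeff j φ = coeff j ψ

lemma Le.mul {φ ψ χ : PowerSeries ℤ} (h : Le φ ψ) (hχ : ∀ j, 0 ≤ coeff j χ) :
    Le (φ * χ) (ψ * χ) := by
  intro j
  rw [coeff_mul, coeff_mul]
  exact Finset.sum_le_sum fun p _ => mul_le_mul_of_nonneg_right (h _) (hχ _)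

lemma Le.trans {φ ψ χ : PowerSeries ℤ} (h : Le φ ψ) (h' : Le ψ χ) : Le φ χ :=
  fun j => (h j).trans (h' j)

lemma EqUp.mul {k : ℕ} {φ ψ : PowerSeries ℤ} (h : EqUp k φ ψ) (χ : PowerSeries ℤ) :
    EqUp k (φ * χ) (ψ * χ) := by
  intro j hj
  rw [coeff_mul, coeff_mul]
  refine Finset.sum_congr rfl fun p hp => ?_
  have := Finset.HasAntidiagonal.mem_antidiagonal.mp hp
  rw [h p.1 (by omega)]

lemma EqUp.symm {k : ℕ} {φ ψ : PowerSeries ℤ} (h : EqUp k φ ψ) : EqUp k ψ φ :=
  fun j hj => (h j hj).symm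

lemma EqUp.trans {k : ℕ} {φ ψ χ : PowerSeries ℤ} (h : EqUp k φ ψ) (h' : EqUp k ψ χ) :
    EqUp k φ χ := fun j hj => (h j hj).trans (h' j hj)

lemma nonneg_mul {φ ψ : PowerSeries ℤ} (h : ∀ j, 0 ≤ coeff j φ) (h' : ∀ j, 0 ≤ coeff j ψ) (j : ℕ) :
    0 ≤ coeff j (φ * ψ) := by
  rw [coeff_mul]
  exact Finset.sum_nonneg fun p _ => mul_nonneg (h _) (h' _)

variable {r : ℕ}

/-- product of the inverse factors -/
noncomputable def AA (d : Fin r → ℕ) (J : Finset (Fin r)) : PowerSeries ℤ := ∏ i ∈ J, Afac (d i)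

/-- product of the factors -/
noncomputable def PP (d : Fin r → ℕ) (J : Finset (Fin r)) : PowerSeries ℤ := ∏ i ∈ J, Pfac (d i)

lemma AA_PP {d : Fin r → ℕ} (hd : ∀ i, 1 ≤ d i) (J : Finset (Fin r)) : AA d J * PP d J = 1 := by
  unfold AA PP
  rw [← Finset.prod_mul_distrib]
  exact Finset.prod_eq_one fun i _ => Afac_mul_Pfac (hd i)

lemma AA_nonneg {d : Fin r → ℕ} (hd : ∀ i, 1 ≤ d i) (J : Finset (Fin r)) (j : ℕ) :
    0 ≤ coeff j (AA d J) := by
  classical
  induction J using Finset.induction_on generalizing j with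
  | empty => unfold AA; rw [Finset.prod_empty, coeff_one]; split_ifs <;> simp
  | insert i J hi ih =>
    unfold AA
    rw [Finset.prod_insert hi]
    exact nonneg_mul (fun j => Afac_nonneg (hd i) j) (fun j => ih j) j

lemma AA_insert {d : Fin r → ℕ} {J : Finset (Fin r)} {i : Fin r} (hi : i ∉ J) :
    AA d (insert i J) = Afac (d i) * AA d J := by
  unfold AA; rw [Finset.prod_insert hi]

lemma PP_const {d : Fin r → ℕ} (hd : ∀ i, 1 ≤ d i) (J : Finset (Fin r)) :
    constantCoeff (AA d J) = 1 := by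
  classical
  induction J using Finset.induction_on with
  | empty => unfold AA; simp
  | insert i J hi ih =>
    rw [AA_insert hi, map_mul, ih, mul_one]
    unfold Afac
    split_ifs
    · simp
    · simp [show d i ≠ 0 by have := hd i; omega]

/-- squeezing: if `φ ≤ ψ` coefficientwise and `ψ * a ≤ φ * a` up to degree `k`, with `a ≥ 0` and
constant coefficient `1`, then `φ = ψ` up to degree `k`. -/
lemma squeeze {k : ℕ} {φ ψ a : PowerSeries ℤ} (h : Le φ ψ) (ha : ∀ j, 0 ≤ coeff j a)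
    (ha0 : constantCoeff a = 1) (h' : ∀ j ≤ k, coeff j (ψ * a) ≤ coeff j (φ * a)) :
    EqUp k φ ψ := by
  intro j hj
  apply le_antisymm (h j)
  have h1 := h' j hj
  have h2 : 0 ≤ coeff j (ψ - φ) := by rw [map_sub]; linarith [h j]
  have h3 : coeff j (ψ - φ) * 1 ≤ coeff j ((ψ - φ) * a) := by
    rw [coeff_mul]
    have h4 : (j, 0) ∈ Finset.HasAntidiagonal.antidiagonal j := by simp
    refine le_trans ?_ (Finset.single_le_sum (f := fun p : ℕ × ℕ =>
      coeff p.1 (ψ - φ) * coeff p.2 a) (fun p _ => ?_) h4)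
    · simp only [coeff_zero_eq_constantCoeff_apply, ha0]
      exact le_rfl
    · apply mul_nonneg _ (ha _)
      rw [map_sub]; linarith [h p.1]
  rw [sub_mul, map_sub, map_sub] at h3
  linarith

end R687.GE
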