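import Mathlib
import Pool.Agent.R687.GE.Basic

/-! Ideals generated by homogeneous elements, their graded pieces, and dimension recursions. -/

open Finset Module

namespace R687.GE

variable {K : Type*} [Field K] {n : ℕ}

/-- The two-sided ideal generated by the elements `f i`, as a subspace. -/
noncomputable def genIdeal {r : ℕ} (f : Fin r → E K n) : Submodule K (E K n) :=
  Submodule.span K {x | ∃ (i : Fin r) (a b : E K n), x = a * f i * b}

/-- The degree `k` part of the ideal, as a subspace of the degree `k` part of the algebra. -/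
noncomputable def idealPiece {r : ℕ} (f : Fin r → E K n) (k : ℕ) : Submodule K (Piece K n k) :=
  (genIdeal f).comap (Piece K n k).subtype

/-- The Hilbert function of the quotient of the exterior algebra by the ideal generated by `f`:
the dimension of the degree `k` part of the quotient. -/
noncomputable def hilb {r : ℕ} (f : Fin r → E K n) (k : ℕ) : ℕ :=
  Module.finrank K (↥(Piece K n k) ⧸ idealPiece f k)

/-! ### Diagonal projections -/

open Classical in
/-- projection to the span of the monomials satisfying `χ` -/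
noncomputable def pr (χ : Finset (Fin n) → Prop) : E K n →ₗ[K] E K n :=
  (e K n).constr K (fun S => if χ S then e K n S else 0)

open Classical in
lemma pr_e (χ : Finset (Fin n) → Prop) (S : Finset (Fin n)) :
    pr χ (e K n S) = if χ S then e K n S else 0 := by
  unfold pr
  rw [Basis.constr_basis]

lemma pr_e_pos {χ : Finset (Fin n) → Prop} {S : Finset (Fin n)} (h : χ S) :
    pr χ (e K n S) = e K n S := by rw [pr_e, if_pos h]

lemma pr_e_neg {χ : Finset (Fin n) → Prop} {S : Finset (Fin n)} (h : ¬ χ S) :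
    pr χ (e K n S) = 0 := by rw [pr_e, if_neg h]

lemma pr_mul_e {χ χ' : Finset (Fin n) → Prop} {T : Finset (Fin n)}
    (h : ∀ S, Disjoint T S → (χ (T ∪ S) ↔ χ' S)) (y : E K n) :
    pr χ (e K n T * y) = e K n T * pr χ' y := by
  have : pr χ ∘ₗ LinearMap.mulLeft K (e K n T) = LinearMap.mulLeft K (e K n T) ∘ₗ pr χ' := by
    apply (e K n).ext
    intro S
    simp only [LinearMap.comp_apply, LinearMap.mulLeft_apply]
    by_cases hd : Disjoint T S
    · obtain ⟨ε, _, h2⟩ := e_mul_disj (K := K) hd
      by_cases hc : χ' S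
      · rw [pr_e_pos hc, h2, map_smul, pr_e_pos ((h S hd).mpr hc)]
      · rw [pr_e_neg hc, h2, map_smul, pr_e_neg (fun h' => hc ((h S hd).mp h'))]
        simp
    · rw [e_mul_ndisj hd, map_zero]
      by_cases hc : χ' S
      · rw [pr_e_pos hc, e_mul_ndisj hd]
      · rw [pr_e_neg hc, mul_zero]
  have h3 := LinearMap.congr_fun this y
  simpa using h3

/-- projection to degree `j` -/
noncomputable def deg (j : ℤ) : E K n →ₗ[K] E K n := pr (fun S => (S.card : ℤ) = j)

lemma e_ind {P : E K n → Prop} (x : E K n) (he : ∀ S, P (e K n S)) (h0 : P 0)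
    (ha : ∀ x y, P x → P y → P (x + y)) (hs : ∀ (c : K) x, P x → P (c • x)) : P x := by
  have hx : x ∈ Submodule.span K (Set.range (e K n)) := by rw [Basis.span_eq]; trivial
  induction hx using Submodule.span_induction with
  | mem x hx => obtain ⟨S, rfl⟩ := hx; exact he S
  | zero => exact h0
  | add x y _ _ hx hy => exact ha x y hx hy
  | smul c x _ hx => exact hs c x hx

lemma deg_mem (j : ℤ) (x : E K n) : deg j x ∈ A K n j := by
  apply e_ind x
  · intro S
    unfold deg
    by_cases h : (S.card : ℤ) = j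
    · rw [pr_e_pos h]; exact e_mem' S h
    · rw [pr_e_neg h]; simp
  · simp
  · intro x y hx hy; rw [map_add]; exact Submodule.add_mem _ hx hy
  · intro c x hx; rw [map_smul]; exact Submodule.smul_mem _ _ hx

lemma pr_of_mem {χ : Finset (Fin n) → Prop} {x : E K n}
    (h : x ∈ Submodule.span K (e K n '' {S | χ S})) : pr χ x = x := by
  induction h using Submodule.span_induction with
  | mem x hx => obtain ⟨S, hS, rfl⟩ := hx; exact pr_e_pos hS
  | zero => simp
  | add x y _ _ hx hy => rw [map_add, hx, hy]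
  | smul c x _ hx => rw [map_smul, hx]

lemma deg_of_mem {j : ℤ} {x : E K n} (h : x ∈ A K n j) : deg j x = x := pr_of_mem h

lemma deg_mul {d : ℤ} {f : E K n} (hf : f ∈ A K n d) (j : ℤ) (y : E K n) :
    deg j (f * y) = f * deg (j - d) y := by
  unfold A at hf
  induction hf using Submodule.span_induction with
  | mem x hx =>
    obtain ⟨T, hT, rfl⟩ := hx
    apply pr_mul_e
    intro S hd
    rw [Finset.card_union_of_disjoint hd]
    simp only [Set.mem_ofPred_eq] at hT
    push_cast
    omega
  | zero => simp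
  | add x y _ _ hx hy => rw [add_mul, map_add, hx, hy, add_mul]
  | smul c x _ hx => rw [smul_mul_assoc, map_smul, hx, smul_mul_assoc]

/-- graded commutativity -/
lemma gcomm {i j : ℤ} {x y : E K n} (hx : x ∈ A K n i) (hy : y ∈ A K n j) :
    x * y = (-1 : K) ^ (i * j) • (y * x) := by
  by_cases hi : i < 0
  · rw [A_neg hi] at hx
    rw [(Submodule.mem_bot K).mp hx]; simp
  by_cases hj : j < 0
  · rw [A_neg hj] at hy
    rw [(Submodule.mem_bot K).mp hy]; simp
  obtain ⟨a, rfl⟩ := Int.eq_ofNat_of_zero_le (not_lt.mp hi)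
  obtain ⟨b, rfl⟩ := Int.eq_ofNat_of_zero_le (not_lt.mp hj)
  rw [A_nat] at hx hy
  rw [gcomm_nat hx hy]
  norm_cast

lemma neg_one_zpow_ne (i : ℤ) : (-1 : K) ^ i ≠ 0 := zpow_ne_zero _ (by simp)

/-- for homogeneous `f`, `x f` lies in `f E` -/
lemma mul_right_mem {d : ℤ} {f : E K n} (hf : f ∈ A K n d) (x : E K n) :
    ∃ y, x * f = f * y := by
  apply e_ind (P := fun x => ∃ y, x * f = f * y) x
  · intro S
    refine ⟨(-1 : K) ^ ((S.card : ℤ) * d) • e K n S, ?_⟩
    rw [gcomm (e_mem S) hf, mul_smul_comm]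
  · exact ⟨0, by simp⟩
  · rintro x y ⟨a, ha⟩ ⟨b, hb⟩
    exact ⟨a + b, by rw [add_mul, ha, hb, mul_add]⟩
  · rintro c x ⟨a, ha⟩
    exact ⟨c • a, by rw [smul_mul_assoc, ha, mul_smul_comm]⟩

variable {r : ℕ}

/-- graded piece of the ideal generated by the `f i`, `i ∈ J` -/
noncomputable def G (d : Fin r → ℕ) (f : Fin r → E K n) (J : Finset (Fin r)) (j : ℤ) : Submodule K (E K n) :=
  ⨆ i ∈ J, (A K n (j - d i)).map (LinearMap.mulLeft K (f i))

lemma mem_G {d : Fin r → ℕ} {f : Fin r → E K n} {J : Finset (Fin r)} {j : ℤ} {i : Fin r}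
    (hi : i ∈ J) {y : E K n} (hy : y ∈ A K n (j - d i)) : f i * y ∈ G d f J j := by
  unfold G
  exact Submodule.mem_iSup_of_mem i (Submodule.mem_iSup_of_mem hi ⟨y, hy, rfl⟩)

lemma G_le {d : Fin r → ℕ} {f : Fin r → E K n} {J : Finset (Fin r)} {j : ℤ}
    {W : Submodule K (E K n)}
    (h : ∀ i ∈ J, ∀ y ∈ A K n (j - d i), f i * y ∈ W) : G d f J j ≤ W := by
  unfold G
  refine iSup_le fun i => iSup_le fun hi => ?_
  rintro _ ⟨y, hy, rfl⟩
  exact h i hi y hy

lemma G_le_A {d : Fin r → ℕ} {f : Fin r → E K n} (hf : ∀ i, f i ∈ A K n (d i))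
    (J : Finset (Fin r)) (j : ℤ) : G d f J j ≤ A K n j := by
  apply G_le
  intro i _ y hy
  have := A_mul (hf i) hy
  rwa [show (d i : ℤ) + (j - d i) = j by ring] at this

lemma G_insert {d : Fin r → ℕ} {f : Fin r → E K n} (J : Finset (Fin r)) (i : Fin r) (j : ℤ) :
    G d f (insert i J) j =
      G d f J j ⊔ (A K n (j - d i)).map (LinearMap.mulLeft K (f i)) := by
  unfold G
  rw [Finset.iSup_insert, sup_comm]

lemma G_empty {d : Fin r → ℕ} {f : Fin r → E K n} (j : ℤ) : G d f ∅ j = ⊥ := by
  unfold G; simp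

lemma G_mono {d : Fin r → ℕ} {f : Fin r → E K n} {J J' : Finset (Fin r)} (h : J ⊆ J') (j : ℤ) :
    G d f J j ≤ G d f J' j :=
  G_le fun _ hi _ hy => mem_G (h hi) hy

/-- left multiplication by a homogeneous element preserves the ideal -/
lemma mul_mem_G {d : Fin r → ℕ} {f : Fin r → E K n} (hf : ∀ i, f i ∈ A K n (d i))
    {J : Finset (Fin r)} {j c : ℤ} {g : E K n} (hg : g ∈ A K n c) {x : E K n}
    (hx : x ∈ G d f J j) : g * x ∈ G d f J (j + c) := by
  have : G d f J j ≤ (G d f J (j + c)).comap (LinearMap.mulLeft K g) := by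
    apply G_le
    intro i hi y hy
    change g * (f i * y) ∈ G d f J (j + c)
    rw [← mul_assoc, gcomm hg (hf i), smul_mul_assoc, mul_assoc]
    apply Submodule.smul_mem
    apply mem_G hi
    have := A_mul hg hy
    rwa [show c + (j - d i) = j + c - d i by ring] at this
  exact this hx

lemma genIdeal_eq {d : Fin r → ℕ} {f : Fin r → E K n} (hf : ∀ i, f i ∈ A K n (d i)) :
    genIdeal f = ⨆ i, LinearMap.range (LinearMap.mulLeft K (f i)) := by
  apply le_antisymm
  · unfold genIdeal
    rw [Submodule.span_le]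
    rintro x ⟨i, a, b, rfl⟩
    obtain ⟨y, hy⟩ := mul_right_mem (hf i) a
    rw [hy, mul_assoc]
    exact Submodule.mem_iSup_of_mem i ⟨y * b, rfl⟩
  · refine iSup_le fun i => ?_
    rintro _ ⟨y, rfl⟩
    exact Submodule.subset_span ⟨i, 1, y, by simp⟩

lemma genIdeal_inf {d : Fin r → ℕ} {f : Fin r → E K n} (hf : ∀ i, f i ∈ A K n (d i)) (j : ℤ) :
    genIdeal f ⊓ A K n j = G d f univ j := by
  apply le_antisymm
  · rintro x ⟨hx, hx'⟩
    rw [← deg_of_mem hx']
    rw [SetLike.mem_coe, genIdeal_eq hf] at hx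
    have h1 : (⨆ i, LinearMap.range (LinearMap.mulLeft K (f i))) ≤
        (G d f univ j).comap (deg j) := by
      refine iSup_le fun i => ?_
      rintro _ ⟨y, rfl⟩
      rw [Submodule.mem_comap, LinearMap.mulLeft_apply, deg_mul (hf i)]
      exact mem_G (mem_univ i) (deg_mem _ _)
    exact h1 hx
  · apply le_inf
    · apply G_le
      intro i _ y _
      exact Submodule.subset_span ⟨i, 1, y, by simp⟩
    · exact G_le_A hf _ _

/-- signed Hilbert function of the partial quotient -/
noncomputable def h (d : Fin r → ℕ) (f : Fin r → E K n) (J : Finset (Fin r)) (j : ℤ) : ℤ :=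
  (finrank K (A K n j) : ℤ) - finrank K (G d f J j)

instance : FiniteDimensional K (E K n) := (e K n).finiteDimensional_of_finite

lemma hilb_eq {d : Fin r → ℕ} {f : Fin r → E K n} (hf : ∀ i, f i ∈ A K n (d i)) (k : ℕ) :
    (hilb f k : ℤ) = h d f univ k := by
  unfold hilb idealPiece h
  have h1 := Submodule.finrank_quotient_add_finrank
    ((genIdeal f).comap (Piece K n k).subtype)
  have h2 : finrank K ((genIdeal f).comap (Piece K n k).subtype) =
      finrank K (G d f univ k) := by
    rw [← genIdeal_inf hf, A_nat]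
    rw [LinearEquiv.finrank_eq (Submodule.equivMapOfInjective
      (Piece K n k).subtype (Submodule.subtype_injective _)
      ((genIdeal f).comap (Piece K n k).subtype)), Submodule.map_comap_subtype, inf_comm]
  rw [A_nat, ← h1, h2]
  push_cast
  ring

lemma finrank_A (k : ℕ) : finrank K (A K n k) = n.choose k := by
  rw [A_nat, finrank_piece]

lemma h_empty (d : Fin r → ℕ) (f : Fin r → E K n) (k : ℕ) : h d f ∅ k = n.choose k := by
  unfold h
  rw [G_empty, finrank_A]
  simp

lemma h_neg (d : Fin r → ℕ) {f : Fin r → E K n} (hf : ∀ i, f i ∈ A K n (d i))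
    (J : Finset (Fin r)) {j : ℤ} (hj : j < 0) : h d f J j = 0 := by
  unfold h
  have h1 := G_le_A hf J j
  rw [A_neg hj] at h1
  rw [le_bot_iff.mp h1, A_neg hj]
  simp

lemma h_nonneg (d : Fin r → ℕ) {f : Fin r → E K n} (hf : ∀ i, f i ∈ A K n (d i))
    (J : Finset (Fin r)) (j : ℤ) : 0 ≤ h d f J j := by
  unfold h
  have := Submodule.finrank_mono (G_le_A hf J j)
  omega

/-- the rank formula -/
lemma rank_lemma {X : Type*} [AddCommGroup X] [Module K X] [FiniteDimensional K X]
    (W P : Submodule K X) (φ : X →ₗ[K] X) :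
    finrank K ↥(W ⊔ P.map φ) + finrank K ↥(P ⊓ W.comap φ) = finrank K W + finrank K P := by
  have h1 := Submodule.finrank_sup_add_finrank_inf_eq W (P.map φ)
  have h2 := LinearMap.finrank_range_add_finrank_ker (φ.domRestrict P)
  have h3 := LinearMap.finrank_range_add_finrank_ker (φ.domRestrict (P ⊓ W.comap φ))
  have h4 : LinearMap.range (φ.domRestrict P) = P.map φ := by
    rw [LinearMap.range_domRestrict]
  have h5 : LinearMap.range (φ.domRestrict (P ⊓ W.comap φ)) = W ⊓ P.map φ := by
    rw [LinearMap.range_domRestrict]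
    ext y
    constructor
    · rintro ⟨x, ⟨hx1, hx2⟩, rfl⟩
      exact ⟨hx2, ⟨x, hx1, rfl⟩⟩
    · rintro ⟨hy, ⟨x, hx, rfl⟩⟩
      exact ⟨x, ⟨hx, hy⟩, rfl⟩
  have h6 : finrank K (LinearMap.ker (φ.domRestrict P)) =
      finrank K (LinearMap.ker (φ.domRestrict (P ⊓ W.comap φ))) := by
    have e1 : finrank K (LinearMap.ker (φ.domRestrict P)) =
        finrank K ↥(P ⊓ LinearMap.ker φ) := by
      rw [LinearMap.ker_domRestrict, LinearEquiv.finrank_eq (Submodule.equivMapOfInjective
        P.subtype (Submodule.subtype_injective _) ((LinearMap.ker φ).comap P.subtype)),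
        Submodule.map_comap_subtype]
    have e2 : finrank K (LinearMap.ker (φ.domRestrict (P ⊓ W.comap φ))) =
        finrank K ↥((P ⊓ W.comap φ) ⊓ LinearMap.ker φ) := by
      rw [LinearMap.ker_domRestrict, LinearEquiv.finrank_eq (Submodule.equivMapOfInjective
        (P ⊓ W.comap φ).subtype (Submodule.subtype_injective _)
        ((LinearMap.ker φ).comap (P ⊓ W.comap φ).subtype)),
        Submodule.map_comap_subtype]
    have e3 : (P ⊓ W.comap φ) ⊓ LinearMap.ker φ = P ⊓ LinearMap.ker φ := by
      ext x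
      constructor
      · rintro ⟨⟨a, _⟩, c⟩; exact ⟨a, c⟩
      · rintro ⟨a, c⟩
        refine ⟨⟨a, ?_⟩, c⟩
        change φ x ∈ W
        rw [LinearMap.mem_ker.mp c]
        exact W.zero_mem
    rw [e1, e2, e3]
  rw [h4] at h2
  rw [h5] at h3
  omega

lemma step_eq (d : Fin r → ℕ) (f : Fin r → E K n) (J : Finset (Fin r)) (i : Fin r) (j : ℤ) :
    finrank K (G d f (insert i J) j) +
      finrank K ↥(A K n (j - d i) ⊓ (G d f J j).comap (LinearMap.mulLeft K (f i))) =
      finrank K (G d f J j) + finrank K (A K n (j - d i)) := by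
  rw [G_insert]
  exact rank_lemma _ _ _

lemma step_general {d : Fin r → ℕ} {f : Fin r → E K n} (hf : ∀ i, f i ∈ A K n (d i))
    (J : Finset (Fin r)) (i : Fin r) (j : ℤ) :
    h d f J j - h d f J (j - d i) ≤ h d f (insert i J) j := by
  have h1 := step_eq d f J i j
  have h2 : G d f J (j - d i) ≤
      A K n (j - d i) ⊓ (G d f J j).comap (LinearMap.mulLeft K (f i)) := by
    apply le_inf (G_le_A hf _ _)
    intro x hx
    have := mul_mem_G hf (hf i) hx
    rwa [show j - (d i : ℤ) + d i = j by ring] at this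
  have h3 := Submodule.finrank_mono h2
  unfold h
  omega

lemma sq_zero (h2 : (2 : K) ≠ 0) {d : ℕ} (hd : Odd d) {f : E K n} (hf : f ∈ A K n d) :
    f * f = 0 := by
  have h1 := gcomm hf hf
  have h3 : ((-1 : K) ^ ((d : ℤ) * d)) = -1 := by
    have : Odd ((d : ℤ) * d) := by
      have := hd.mul hd
      exact_mod_cast this
    exact this.neg_one_zpow
  rw [h3, neg_one_smul] at h1
  have h4 : (2 : K) • (f * f) = 0 := by
    rw [two_smul]
    nth_rw 1 [h1]
    exact neg_add_cancel _
  exact (smul_eq_zero.mp h4).resolve_left h2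

lemma step_odd (h2 : (2 : K) ≠ 0) {d : Fin r → ℕ} {f : Fin r → E K n}
    (hf : ∀ i, f i ∈ A K n (d i))
    (J : Finset (Fin r)) (i : Fin r) (hi : Odd (d i)) (j : ℤ) :
    h d f J j ≤ h d f (insert i J) j + h d f (insert i J) (j - d i) := by
  have h1 := step_eq d f J i j
  have h2 : G d f (insert i J) (j - d i) ≤
      A K n (j - d i) ⊓ (G d f J j).comap (LinearMap.mulLeft K (f i)) := by
    apply le_inf (G_le_A hf _ _)
    rw [G_insert]
    apply sup_le
    · intro x hx
      have := mul_mem_G hf (hf i) hx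
      rwa [show j - (d i : ℤ) + d i = j by ring] at this
    · rintro _ ⟨y, hy, rfl⟩
      change f i * (f i * y) ∈ G d f J j
      rw [← mul_assoc, sq_zero h2 hi (hf i), zero_mul]
      exact Submodule.zero_mem _
  have h3 := Submodule.finrank_mono h2
  unfold h
  omega

/-- exactness gives equality (even case) -/
lemma step_even_eq {d : Fin r → ℕ} {f : Fin r → E K n} (hf : ∀ i, f i ∈ A K n (d i))
    (J : Finset (Fin r)) (i : Fin r) (j : ℤ)
    (hex : ∀ x ∈ A K n (j - d i), f i * x ∈ G d f J j → x ∈ G d f J (j - d i)) :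
    h d f (insert i J) j = h d f J j - h d f J (j - d i) := by
  have h1 := step_eq d f J i j
  have h2 : A K n (j - d i) ⊓ (G d f J j).comap (LinearMap.mulLeft K (f i)) =
      G d f J (j - d i) := by
    apply le_antisymm
    · rintro x ⟨hx1, hx2⟩
      exact hex x hx1 hx2
    · apply le_inf (G_le_A hf _ _)
      intro x hx
      have := mul_mem_G hf (hf i) hx
      rwa [show j - (d i : ℤ) + d i = j by ring] at this
  rw [h2] at h1
  unfold h
  omega

/-- exactness gives equality (odd case) -/
lemma step_odd_eq (h2 : (2 : K) ≠ 0) {d : Fin r → ℕ} {f : Fin r → E K n}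
    (hf : ∀ i, f i ∈ A K n (d i))
    (J : Finset (Fin r)) (i : Fin r) (hi : Odd (d i)) (j : ℤ)
    (hex : ∀ x ∈ A K n (j - d i), f i * x ∈ G d f J j → x ∈ G d f (insert i J) (j - d i)) :
    h d f J j = h d f (insert i J) j + h d f (insert i J) (j - d i) := by
  have h1 := step_eq d f J i j
  have h3 : A K n (j - d i) ⊓ (G d f J j).comap (LinearMap.mulLeft K (f i)) =
      G d f (insert i J) (j - d i) := by
    apply le_antisymm
    · rintro x ⟨hx1, hx2⟩
      exact hex x hx1 hx2
    · apply le_inf (G_le_A hf _ _)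
      rw [G_insert]
      apply sup_le
      · intro x hx
        have := mul_mem_G hf (hf i) hx
        rwa [show j - (d i : ℤ) + d i = j by ring] at this
      · rintro _ ⟨y, hy, rfl⟩
        change f i * (f i * y) ∈ G d f J j
        rw [← mul_assoc, sq_zero h2 hi (hf i), zero_mul]
        exact Submodule.zero_mem _
  rw [h3] at h1
  unfold h
  omega

/-- equality of dimensions gives exactness (even case) -/
lemma exact_of_eq {d : Fin r → ℕ} {f : Fin r → E K n} (hf : ∀ i, f i ∈ A K n (d i))
    (J : Finset (Fin r)) (i : Fin r) (j : ℤ)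
    (heq : h d f (insert i J) j = h d f J j - h d f J (j - d i)) :
    ∀ x ∈ A K n (j - d i), f i * x ∈ G d f J j → x ∈ G d f J (j - d i) := by
  have h1 := step_eq d f J i j
  have h2 : G d f J (j - d i) ≤
      A K n (j - d i) ⊓ (G d f J j).comap (LinearMap.mulLeft K (f i)) := by
    apply le_inf (G_le_A hf _ _)
    intro x hx
    have := mul_mem_G hf (hf i) hx
    rwa [show j - (d i : ℤ) + d i = j by ring] at this
  have h3 := Submodule.eq_of_le_of_finrank_eq h2 (by unfold h at heq; omega)
  intro x hx hfx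
  rw [h3]
  exact ⟨hx, hfx⟩

end R687.GE
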