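import Mathlib
import Pool.Agent.R687.GE.Hilb

/-! Block operators on the exterior algebra and exactness for sums of disjoint monomials. -/

open Finset Module

namespace R687.GE

variable {K : Type*} [Field K] {n : ℕ}

lemma exists_split {b S : Finset (Fin n)} (h : b ⊆ S) :
    ∃ ε : K, ε * ε = 1 ∧ e K n b * e K n (S \ b) = ε • e K n S := by
  obtain ⟨ε, h1, h2⟩ := e_mul_disj (K := K) (S := b) (T := S \ b) Finset.disjoint_sdiff
  refine ⟨ε, h1, ?_⟩
  rw [h2, Finset.union_sdiff_of_subset h]

open Classical in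
/-- division by the monomial `e b` -/
noncomputable def dl (b : Finset (Fin n)) : E K n →ₗ[K] E K n :=
  (e K n).constr K (fun S => if h : b ⊆ S then (exists_split (K := K) h).choose • e K n (S \ b)
    else 0)

lemma dl_neg {b S : Finset (Fin n)} (h : ¬ b ⊆ S) : dl b (e K n S) = 0 := by
  unfold dl
  rw [Basis.constr_basis, dif_neg h]

lemma dl_pos {b S : Finset (Fin n)} (h : b ⊆ S) :
    ∃ ε : K, ε * ε = 1 ∧ e K n b * e K n (S \ b) = ε • e K n S ∧
      dl b (e K n S) = ε • e K n (S \ b) := by
  refine ⟨_, (exists_split (K := K) h).choose_spec.1, (exists_split (K := K) h).choose_spec.2, ?_⟩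
  unfold dl
  rw [Basis.constr_basis, dif_pos h]

lemma dl_mul_self {b S : Finset (Fin n)} (h : Disjoint b S) :
    dl b (e K n b * e K n S) = e K n S := by
  obtain ⟨ε, h1, h2⟩ := e_mul_disj (K := K) h
  obtain ⟨δ, h3, h4, h5⟩ := dl_pos (K := K) (b := b) (S := b ∪ S) Finset.subset_union_left
  have h6 : (b ∪ S) \ b = S := by
    rw [Finset.union_sdiff_left]
    exact Finset.sdiff_eq_self_of_disjoint h.symm
  rw [h6] at h4 h5
  have h7 : ε = δ := by
    have h8 : (ε - δ) • e K n (b ∪ S) = 0 := by rw [sub_smul, ← h2, ← h4, sub_self]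
    rcases smul_eq_zero.mp h8 with h9 | h9
    · exact sub_eq_zero.mp h9
    · exact absurd h9 ((e K n).ne_zero _)
  rw [h2, map_smul, h5, smul_smul, h7, h3, one_smul]

lemma dl_mul_self' {b S : Finset (Fin n)} (h : ¬ Disjoint b S) :
    dl b (e K n b * e K n S) = 0 := by
  rw [e_mul_ndisj h, map_zero]

lemma mul_dl_self {b S : Finset (Fin n)} (h : b ⊆ S) :
    e K n b * dl b (e K n S) = e K n S := by
  obtain ⟨δ, h3, h4, h5⟩ := dl_pos (K := K) h
  rw [h5, mul_smul_comm, h4, smul_smul, h3, one_smul]

lemma mul_dl_self' {b S : Finset (Fin n)} (h : ¬ b ⊆ S) :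
    e K n b * dl b (e K n S) = 0 := by
  rw [dl_neg h, mul_zero]

lemma dl_mul {b c : Finset (Fin n)} (h : Disjoint b c) (y : E K n) :
    dl b (e K n c * y) = (-1 : K) ^ (b.card * c.card) • (e K n c * dl b y) := by
  apply e_ind (P := fun y => dl b (e K n c * y) =
    (-1 : K) ^ (b.card * c.card) • (e K n c * dl b y)) y
  · intro S
    by_cases hbS : b ⊆ S
    · obtain ⟨ε, h1, h2, h3⟩ := dl_pos (K := K) hbS
      have h4 : e K n S = ε • (e K n b * e K n (S \ b)) := by
        rw [h2, smul_smul, h1, one_smul]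
      have h5 : e K n c * e K n S =
          (ε * (-1 : K) ^ (b.card * c.card)) • (e K n b * (e K n c * e K n (S \ b))) := by
        rw [h4, mul_smul_comm, ← mul_assoc, e_comm c b, smul_mul_assoc, smul_smul, mul_assoc,
          mul_comm c.card b.card]
      rw [h5, map_smul, h3, mul_smul_comm, smul_smul, mul_comm ε]
      congr 1
      by_cases hc : Disjoint c (S \ b)
      · obtain ⟨ε', h6, h7⟩ := e_mul_disj (K := K) hc
        rw [h7, mul_smul_comm, map_smul, dl_mul_self]
        rw [Finset.disjoint_union_right]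
        exact ⟨h, Finset.disjoint_sdiff⟩
      · rw [e_mul_ndisj hc, mul_zero, map_zero]
    · rw [dl_neg hbS, mul_zero, smul_zero]
      by_cases hc : Disjoint c S
      · obtain ⟨ε', h6, h7⟩ := e_mul_disj (K := K) hc
        rw [h7, map_smul, dl_neg, smul_zero]
        intro h8
        apply hbS
        intro x hx
        rcases Finset.mem_union.mp (h8 hx) with h9 | h9
        · exact absurd h9 (Finset.disjoint_left.mp h hx)
        · exact h9
      · rw [e_mul_ndisj hc, map_zero]
  · simp
  · intro x y hx hy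
    rw [mul_add, map_add, hx, hy, map_add, mul_add, smul_add]
  · intro c' x hx
    rw [mul_smul_comm, map_smul, hx, map_smul, mul_smul_comm, smul_comm]

lemma dl_mem_A {b : Finset (Fin n)} {j : ℤ} {x : E K n} (hx : x ∈ A K n j) :
    dl b x ∈ A K n (j - b.card) := by
  unfold A at hx
  induction hx using Submodule.span_induction with
  | mem x hx =>
    obtain ⟨S, hS, rfl⟩ := hx
    by_cases h : b ⊆ S
    · obtain ⟨ε, _, _, h3⟩ := dl_pos (K := K) h
      rw [h3]
      apply Submodule.smul_mem
      apply e_mem'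
      have := Finset.card_sdiff_add_card_eq_card h
      simp only [Set.mem_ofPred_eq] at hS
      omega
    · rw [dl_neg h]; exact Submodule.zero_mem _
  | zero => simp
  | add x y _ _ hx hy => rw [map_add]; exact Submodule.add_mem _ hx hy
  | smul c x _ hx => rw [map_smul]; exact Submodule.smul_mem _ _ hx

/-! ### Families of disjoint blocks -/

section Blocks

variable {m d : ℕ} (B : Fin m → Finset (Fin n))

/-- the form `∑ e (B l)` -/
noncomputable def F (K : Type*) [Field K] (B : Fin m → Finset (Fin n)) : E K n := ∑ l, e K n (B l)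

lemma F_mem (hd : ∀ l, (B l).card = d) : F K B ∈ A K n d := by
  unfold F
  refine Submodule.sum_mem _ fun l _ => e_mem' _ (by rw [hd l])

lemma F_mul (x : E K n) : F K B * x = ∑ l, e K n (B l) * x := by
  unfold F
  rw [Finset.sum_mul]

/-- statistic -/
noncomputable def H (S : Finset (Fin n)) : ℤ :=
  ∑ l, ((if Disjoint (B l) S then (1 : ℤ) else 0) - (if B l ⊆ S then (1 : ℤ) else 0))

/-- the set of partially filled blocks -/
def Part (S : Finset (Fin n)) : Finset (Fin m) :=
  univ.filter fun l => ¬ Disjoint (B l) S ∧ ¬ B l ⊆ S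

/-- predicates insensitive to adding points outside of the blocks -/
def Insens (χ : Finset (Fin n) → Prop) : Prop :=
  ∀ T, (∀ l, Disjoint (B l) T) → ∀ S, Disjoint T S → (χ (T ∪ S) ↔ χ S)

variable {B}

lemma disj_union {T : Finset (Fin n)} {l : Fin m} (hT : Disjoint (B l) T) (S : Finset (Fin n)) :
    (Disjoint (B l) (T ∪ S) ↔ Disjoint (B l) S) := by
  rw [Finset.disjoint_union_right]
  exact ⟨fun h => h.2, fun h => ⟨hT, h⟩⟩

lemma sub_union {T : Finset (Fin n)} {l : Fin m} (hT : Disjoint (B l) T) (S : Finset (Fin n)) :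
    (B l ⊆ T ∪ S ↔ B l ⊆ S) := by
  constructor
  · intro h x hx
    rcases Finset.mem_union.mp (h hx) with h9 | h9
    · exact absurd h9 (Finset.disjoint_left.mp hT hx)
    · exact h9
  · intro h
    exact h.trans Finset.subset_union_right

lemma H_union {T : Finset (Fin n)} (hT : ∀ l, Disjoint (B l) T) (S : Finset (Fin n)) :
    H B (T ∪ S) = H B S := by
  unfold H
  refine Finset.sum_congr rfl fun l _ => ?_
  simp only [disj_union (hT l), sub_union (hT l)]

lemma Part_union {T : Finset (Fin n)} (hT : ∀ l, Disjoint (B l) T) (S : Finset (Fin n)) :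
    Part B (T ∪ S) = Part B S := by
  unfold Part
  apply Finset.filter_congr
  intro l _
  rw [disj_union (hT l), sub_union (hT l)]

lemma insens_H (h : ℤ) : Insens B (fun S => H B S = h) := by
  intro T hT S _
  change H B (T ∪ S) = h ↔ H B S = h
  rw [H_union hT]

lemma insens_Part (P : Finset (Fin m)) : Insens B (fun S => Part B S = P) := by
  intro T hT S _
  change Part B (T ∪ S) = P ↔ Part B S = P
  rw [Part_union hT]

lemma nonempty_of (hd : ∀ l, (B l).card = d) (hd0 : 1 ≤ d) (l : Fin m) : (B l).Nonempty := by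
  rw [← Finset.card_pos, hd l]; omega

lemma H_block (hB : ∀ l l', l ≠ l' → Disjoint (B l) (B l')) (hne : ∀ l, (B l).Nonempty)
    {l : Fin m} {S : Finset (Fin n)} (hS : Disjoint (B l) S) :
    H B (B l ∪ S) = H B S - 2 := by
  unfold H
  rw [← Finset.add_sum_erase _ _ (mem_univ l), ← Finset.add_sum_erase univ _ (mem_univ l)]
  have h1 : ¬ Disjoint (B l) (B l ∪ S) := by
    intro h
    obtain ⟨x, hx⟩ := hne l
    exact Finset.disjoint_left.mp h hx (Finset.mem_union_left _ hx)
  have h2 : ¬ B l ⊆ S := by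
    intro h
    obtain ⟨x, hx⟩ := hne l
    exact Finset.disjoint_left.mp hS hx (h hx)
  rw [if_neg h1, if_pos Finset.subset_union_left, if_pos hS, if_neg h2]
  have h3 : ∀ l' ∈ univ.erase l,
      ((if Disjoint (B l') (B l ∪ S) then (1 : ℤ) else 0) -
        (if B l' ⊆ B l ∪ S then (1 : ℤ) else 0)) =
      ((if Disjoint (B l') S then (1 : ℤ) else 0) - (if B l' ⊆ S then (1 : ℤ) else 0)) := by
    intro l' hl'
    have hne' : l' ≠ l := (Finset.mem_erase.mp hl').1
    simp only [disj_union (hB l' l hne'), sub_union (hB l' l hne')]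
  rw [Finset.sum_congr rfl h3]
  ring

lemma Part_block (hB : ∀ l l', l ≠ l' → Disjoint (B l) (B l')) (hne : ∀ l, (B l).Nonempty)
    {l : Fin m} {S : Finset (Fin n)} (hS : Disjoint (B l) S) :
    Part B (B l ∪ S) = Part B S := by
  unfold Part
  apply Finset.filter_congr
  intro l' _
  by_cases hl : l' = l
  · subst hl
    constructor
    · rintro ⟨_, h⟩; exact absurd Finset.subset_union_left h
    · rintro ⟨h, _⟩; exact absurd hS h
  · rw [disj_union (hB l' l hl), sub_union (hB l' l hl)]

lemma sum_inter_le (hB : ∀ l l', l ≠ l' → Disjoint (B l) (B l')) (S : Finset (Fin n)) :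
    ∑ l, (B l ∩ S).card ≤ S.card := by
  rw [← Finset.card_biUnion]
  · apply Finset.card_le_card
    intro x hx
    obtain ⟨l, _, hl⟩ := Finset.mem_biUnion.mp hx
    exact (Finset.mem_inter.mp hl).2
  · intro l _ l' _ hll
    exact Finset.disjoint_of_subset_left Finset.inter_subset_left
      (Finset.disjoint_of_subset_right Finset.inter_subset_left (hB l l' hll))

lemma H_lower (hB : ∀ l l', l ≠ l' → Disjoint (B l) (B l')) (hd : ∀ l, (B l).card = d)
    (hd2 : 2 ≤ d) (S : Finset (Fin n)) : (m : ℤ) - S.card ≤ H B S := by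
  have h1 : ∀ l, (1 : ℤ) - (B l ∩ S).card ≤
      (if Disjoint (B l) S then (1 : ℤ) else 0) - (if B l ⊆ S then (1 : ℤ) else 0) := by
    intro l
    by_cases h1 : Disjoint (B l) S
    · have h2 : ¬ B l ⊆ S := by
        intro h
        obtain ⟨x, hx⟩ := nonempty_of hd (by omega) l
        exact Finset.disjoint_left.mp h1 hx (h hx)
      rw [if_pos h1, if_neg h2]
      have : (0 : ℤ) ≤ (B l ∩ S).card := by positivity
      omega
    · rw [if_neg h1]
      by_cases h2 : B l ⊆ S
      · rw [if_pos h2, Finset.inter_eq_left.mpr h2, hd l]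
        omega
      · rw [if_neg h2]
        have : 0 < (B l ∩ S).card := by
          rw [Finset.card_pos]
          exact Finset.not_disjoint_iff_nonempty_inter.mp h1
        omega
  have h2 := Finset.sum_le_sum (fun l (_ : l ∈ (univ : Finset (Fin m))) => h1 l)
  have h3 := sum_inter_le hB S
  rw [Finset.sum_sub_distrib] at h2
  simp only [Finset.sum_const, Finset.card_univ, Fintype.card_fin, nsmul_eq_mul, mul_one] at h2
  have h4 : ((∑ l, (B l ∩ S).card : ℕ) : ℤ) ≤ S.card := by exact_mod_cast h3
  push_cast at h4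
  unfold H
  linarith

lemma Part_card (hB : ∀ l l', l ≠ l' → Disjoint (B l) (B l')) (S : Finset (Fin n)) :
    (Part B S).card ≤ S.card := by
  refine le_trans ?_ (sum_inter_le hB S)
  rw [Finset.card_eq_sum_ones]
  refine le_trans (Finset.sum_le_sum (f := fun _ => 1) (g := fun l => (B l ∩ S).card) ?_)
    (Finset.sum_le_sum_of_subset (Finset.subset_univ _))
  intro l hl
  have h1 := (Finset.mem_filter.mp hl).2.1
  exact Finset.card_pos.mpr (Finset.not_disjoint_iff_nonempty_inter.mp h1)

lemma H_abs (S : Finset (Fin n)) : -(m : ℤ) ≤ H B S ∧ H B S ≤ m := by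
  have h1 : ∀ l, (-1 : ℤ) ≤ (if Disjoint (B l) S then (1 : ℤ) else 0) -
      (if B l ⊆ S then (1 : ℤ) else 0) ∧ (if Disjoint (B l) S then (1 : ℤ) else 0) -
      (if B l ⊆ S then (1 : ℤ) else 0) ≤ 1 := by
    intro l; split_ifs <;> simp
  have h2 := Finset.sum_le_sum (fun l (_ : l ∈ (univ : Finset (Fin m))) => (h1 l).1)
  have h3 := Finset.sum_le_sum (fun l (_ : l ∈ (univ : Finset (Fin m))) => (h1 l).2)
  simp only [Finset.sum_const, Finset.card_univ, Fintype.card_fin, nsmul_eq_mul, mul_one,
    mul_neg] at h2 h3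
  exact ⟨h2, h3⟩

lemma pr_zero {χ : Finset (Fin n) → Prop} {t : ℤ} (h : ∀ S, (S.card : ℤ) = t → ¬ χ S)
    {x : E K n} (hx : x ∈ A K n t) : pr χ x = 0 := by
  unfold A at hx
  induction hx using Submodule.span_induction with
  | mem x hx' => obtain ⟨S, hS, rfl⟩ := hx'; exact pr_e_neg (h S hS)
  | zero => simp
  | add x y _ _ hx hy => rw [map_add, hx, hy, add_zero]
  | smul c x _ hx => rw [map_smul, hx, smul_zero]

/-- Hypotheses on the ideal. -/
structure Good (B : Fin m → Finset (Fin n)) (I : Submodule K (E K n)) : Prop where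
  U : ∀ x ∈ I, F K B * x ∈ I
  D : ∀ l, ∀ x ∈ I, dl (B l) x ∈ I
  P : ∀ χ, Insens B χ → ∀ x ∈ I, pr χ x ∈ I

lemma F_pr {χ χ' : Finset (Fin n) → Prop}
    (h : ∀ l, ∀ S, Disjoint (B l) S → (χ (B l ∪ S) ↔ χ' S)) (x : E K n) :
    F K B * pr χ' x = pr χ (F K B * x) := by
  rw [F_mul, F_mul, map_sum]
  exact Finset.sum_congr rfl fun l _ => (pr_mul_e (h l) x).symm

/-! #### odd case -/

lemma odd_homotopy (hB : ∀ l l', l ≠ l' → Disjoint (B l) (B l')) (hd : ∀ l, (B l).card = d)
    (hodd : Odd d) (l : Fin m) {S : Finset (Fin n)} (hS : l ∉ Part B S) :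
    dl (B l) (F K B * e K n S) + F K B * dl (B l) (e K n S) = e K n S := by
  have hne := fun l => nonempty_of hd hodd.pos l
  rw [F_mul, F_mul, map_sum, ← Finset.sum_add_distrib, ← Finset.add_sum_erase _ _ (mem_univ l)]
  have h1 : ∀ l' ∈ univ.erase l, dl (B l) (e K n (B l') * e K n S) +
      e K n (B l') * dl (B l) (e K n S) = 0 := by
    intro l' hl'
    have hne' : l' ≠ l := (Finset.mem_erase.mp hl').1
    rw [dl_mul (hB l l' hne'.symm), hd, hd, (hodd.mul hodd).neg_one_pow, neg_one_smul,
      neg_add_cancel]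
  rw [Finset.sum_eq_zero h1, add_zero]
  by_cases h2 : Disjoint (B l) S
  · have h3 : ¬ B l ⊆ S := by
      intro h
      obtain ⟨x, hx⟩ := hne l
      exact Finset.disjoint_left.mp h2 hx (h hx)
    rw [dl_mul_self h2, mul_dl_self' h3, add_zero]
  · have h3 : B l ⊆ S := by
      by_contra h3
      exact hS (Finset.mem_filter.mpr ⟨mem_univ _, h2, h3⟩)
    rw [dl_mul_self' h2, mul_dl_self h3, zero_add]

lemma exact_odd (hB : ∀ l l', l ≠ l' → Disjoint (B l) (B l')) (hd : ∀ l, (B l).card = d)
    (hodd : Odd d) {I : Submodule K (E K n)} (hI : Good B I) {t : ℤ} (ht : t < m)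
    {x : E K n} (hx : x ∈ A K n t) (hfx : F K B * x ∈ I) :
    x ∈ I ⊔ LinearMap.range (LinearMap.mulLeft K (F K B)) := by
  have hne := fun l => nonempty_of hd hodd.pos l
  have hsum : x = ∑ P : Finset (Fin m), pr (fun S => Part B S = P) x := by
    apply e_ind (P := fun x => x = ∑ P : Finset (Fin m), pr (fun S => Part B S = P) x) x
    · intro S
      rw [Finset.sum_eq_single (Part B S)]
      · exact (pr_e_pos (χ := fun S' => Part B S' = Part B S) rfl).symm
      · intro P _ hP
        exact pr_e_neg (χ := fun S' => Part B S' = P) (fun h => hP h.symm)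
      · intro h; exact absurd (mem_univ _) h
    · simp
    · intro x y hx hy
      simp only [map_add, Finset.sum_add_distrib]
      rw [← hx, ← hy]
    · intro c x hx
      simp only [map_smul]
      rw [← Finset.smul_sum, ← hx]
  rw [hsum]
  refine Submodule.sum_mem _ fun P _ => ?_
  by_cases hP : P = univ
  · -- the projection vanishes
    have : pr (fun S => Part B S = P) x = 0 := by
      apply pr_zero _ hx
      intro S hS h
      have h1 := Part_card hB S
      rw [h, hP, Finset.card_univ, Fintype.card_fin] at h1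
      omega
    rw [this]
    exact Submodule.zero_mem _
  · obtain ⟨l, hl⟩ : ∃ l, l ∉ P := by
      by_contra hcon
      push Not at hcon
      exact hP (Finset.eq_univ_iff_forall.mpr hcon)
    set y := pr (fun S => Part B S = P) x with hy
    have h1 : F K B * y ∈ I := by
      rw [hy, F_pr (χ := fun S => Part B S = P)]
      · exact hI.P _ (insens_Part P) _ hfx
      · intro l S hS
        change Part B (B l ∪ S) = P ↔ Part B S = P
        rw [Part_block hB hne hS]
    have h2 : dl (B l) (F K B * y) + F K B * dl (B l) y = y := by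
      rw [hy]
      apply e_ind (P := fun x => dl (B l) (F K B * pr (fun S => Part B S = P) x) +
        F K B * dl (B l) (pr (fun S => Part B S = P) x) = pr (fun S => Part B S = P) x) x
      · intro S
        by_cases h : Part B S = P
        · rw [pr_e_pos (χ := fun S' => Part B S' = P) h]
          exact odd_homotopy hB hd hodd l (by rw [h]; exact hl)
        · rw [pr_e_neg (χ := fun S' => Part B S' = P) h]; simp
      · simp
      · intro x y hx hy
        rw [map_add, mul_add, map_add, map_add, mul_add]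
        nth_rw 3 [← hx]
        nth_rw 3 [← hy]
        abel
      · intro c x hx
        rw [map_smul, mul_smul_comm, map_smul, map_smul, mul_smul_comm, ← smul_add, hx]
    rw [← h2]
    exact Submodule.add_mem_sup (hI.D l _ h1) ⟨_, rfl⟩

/-! #### even case -/

/-- the lowering operator -/
noncomputable def L (K : Type*) [Field K] (B : Fin m → Finset (Fin n)) : E K n →ₗ[K] E K n :=
  ∑ l, dl (B l)

lemma L_apply (x : E K n) : L K B x = ∑ l, dl (B l) x := by
  unfold L; simp

/-- the span of monomials with `H = h` -/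
noncomputable def V (K : Type*) [Field K] (B : Fin m → Finset (Fin n)) (h : ℤ) : Submodule K (E K n) :=
  Submodule.span K (e K n '' {S | H B S = h})

lemma dl_V (hB : ∀ l l', l ≠ l' → Disjoint (B l) (B l')) (hne : ∀ l, (B l).Nonempty) {h : ℤ}
    {x : E K n} (hx : x ∈ V K B h) (l : Fin m) : dl (B l) x ∈ V K B (h + 2) := by
  unfold V at hx
  induction hx using Submodule.span_induction with
  | mem x hx' =>
    obtain ⟨S, hS, rfl⟩ := hx'
    by_cases hb : B l ⊆ S
    · obtain ⟨ε, _, _, h3⟩ := dl_pos (K := K) hb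
      rw [h3]
      apply Submodule.smul_mem
      apply Submodule.subset_span
      refine ⟨S \ B l, ?_, rfl⟩
      have h4 := H_block hB hne (l := l) (S := S \ B l) Finset.disjoint_sdiff
      rw [Finset.union_sdiff_of_subset hb] at h4
      simp only [Set.mem_ofPred_eq] at hS ⊢
      omega
    · rw [dl_neg hb]; exact Submodule.zero_mem _
  | zero => simp
  | add x y _ _ hx hy => rw [map_add]; exact Submodule.add_mem _ hx hy
  | smul c x _ hx => rw [map_smul]; exact Submodule.smul_mem _ _ hx

lemma L_V (hB : ∀ l l', l ≠ l' → Disjoint (B l) (B l')) (hne : ∀ l, (B l).Nonempty) {h : ℤ}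
    {x : E K n} (hx : x ∈ V K B h) : L K B x ∈ V K B (h + 2) := by
  rw [L_apply]
  exact Submodule.sum_mem _ fun l _ => dl_V hB hne hx l

lemma even_comm_e (hB : ∀ l l', l ≠ l' → Disjoint (B l) (B l')) (hd : ∀ l, (B l).card = d)
    (heven : Even d) (S : Finset (Fin n)) :
    L K B (F K B * e K n S) - F K B * L K B (e K n S) = (H B S : K) • e K n S := by
  have h1 : ∀ l l', l ≠ l' → dl (B l) (e K n (B l') * e K n S) =
      e K n (B l') * dl (B l) (e K n S) := by
    intro l l' hll
    rw [dl_mul (hB l l' hll), hd, hd, (heven.mul_left d).neg_one_pow, one_smul]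
  have h2 : L K B (F K B * e K n S) - F K B * L K B (e K n S) =
      ∑ l, ∑ l', (dl (B l) (e K n (B l') * e K n S) - e K n (B l') * dl (B l) (e K n S)) := by
    rw [L_apply, L_apply, Finset.mul_sum, ← Finset.sum_sub_distrib]
    refine Finset.sum_congr rfl fun l _ => ?_
    rw [F_mul, F_mul, map_sum, ← Finset.sum_sub_distrib]
  rw [h2]
  unfold H
  push_cast
  rw [Finset.sum_smul]
  refine Finset.sum_congr rfl fun l _ => ?_
  rw [Finset.sum_eq_single l]
  · by_cases h3 : Disjoint (B l) S
    · by_cases h4 : B l ⊆ S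
      · rw [dl_mul_self h3, mul_dl_self h4, if_pos h3, if_pos h4]; simp
      · rw [dl_mul_self h3, mul_dl_self' h4, if_pos h3, if_neg h4]; simp
    · by_cases h4 : B l ⊆ S
      · rw [dl_mul_self' h3, mul_dl_self h4, if_neg h3, if_pos h4]; simp
      · rw [dl_mul_self' h3, mul_dl_self' h4, if_neg h3, if_neg h4]; simp
  · intro l' _ hll
    rw [h1 l l' hll.symm, sub_self]
  · intro h; exact absurd (mem_univ _) h

lemma even_comm (hB : ∀ l l', l ≠ l' → Disjoint (B l) (B l')) (hd : ∀ l, (B l).card = d)
    (heven : Even d) {h : ℤ} {x : E K n} (hx : x ∈ V K B h) :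
    F K B * L K B x = L K B (F K B * x) - (h : K) • x := by
  unfold V at hx
  induction hx using Submodule.span_induction with
  | mem x hx' =>
    obtain ⟨S, hS, rfl⟩ := hx'
    have := even_comm_e (K := K) hB hd heven S
    rw [← hS, ← this]; abel
  | zero => simp
  | add x y _ _ hx hy =>
    rw [map_add, mul_add, hx, hy, mul_add, map_add, smul_add]; abel
  | smul c x _ hx =>
    rw [map_smul, mul_smul_comm, hx, mul_smul_comm, map_smul, smul_sub, smul_comm c]

lemma L_good {I : Submodule K (E K n)} (hI : Good B I) {x : E K n} (hx : x ∈ I) :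
    L K B x ∈ I := by
  rw [L_apply]
  exact Submodule.sum_mem _ fun l _ => hI.D l x hx

lemma L_A (hd : ∀ l, (B l).card = d) {t : ℤ} {x : E K n} (hx : x ∈ A K n t) :
    L K B x ∈ A K n (t - d) := by
  rw [L_apply]
  refine Submodule.sum_mem _ fun l _ => ?_
  have := dl_mem_A (b := B l) hx
  rwa [hd l] at this

lemma iter_V (hB : ∀ l l', l ≠ l' → Disjoint (B l) (B l')) (hne : ∀ l, (B l).Nonempty) {h : ℤ}
    {x : E K n} (hx : x ∈ V K B h) (i : ℕ) : (L K B)^[i] x ∈ V K B (h + 2 * i) := by
  induction i with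
  | zero => simpa using hx
  | succ i ih =>
    rw [Function.iterate_succ_apply']
    have := L_V hB hne ih
    rwa [show h + 2 * (i : ℤ) + 2 = h + 2 * ((i + 1 : ℕ) : ℤ) by push_cast; ring] at this

lemma iter_A (hd : ∀ l, (B l).card = d) {t : ℤ} {x : E K n} (hx : x ∈ A K n t) (i : ℕ) :
    (L K B)^[i] x ∈ A K n (t - d * i) := by
  induction i with
  | zero => simpa using hx
  | succ i ih =>
    rw [Function.iterate_succ_apply']
    have := L_A hd ih
    rwa [show t - (d : ℤ) * i - d = t - d * ((i + 1 : ℕ) : ℤ) by push_cast; ring] at this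

lemma sl2_key (hB : ∀ l l', l ≠ l' → Disjoint (B l) (B l')) (hd : ∀ l, (B l).card = d)
    (heven : Even d) (hd0 : 1 ≤ d) {I : Submodule K (E K n)} (hI : Good B I) {h : ℤ} {x : E K n}
    (hx : x ∈ V K B h) (hfx : F K B * x ∈ I) (i : ℕ) :
    F K B * (L K B)^[i + 1] x + (((i + 1 : ℤ) * (h + i) : ℤ) : K) • (L K B)^[i] x ∈ I := by
  have hne := fun l => nonempty_of hd hd0 l
  induction i with
  | zero =>
    have h1 := even_comm hB hd heven hx
    have h2 : F K B * (L K B)^[0 + 1] x +
        ((((((0 : ℕ) : ℤ) + 1) * (h + ((0 : ℕ) : ℤ)) : ℤ)) : K) • (L K B)^[0] x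
        = L K B (F K B * x) := by
      simp only [zero_add, Function.iterate_one, Function.iterate_zero, id_eq]
      rw [h1]
      push_cast
      module
    rw [h2]
    exact L_good hI hfx
  | succ i ih =>
    have h1 := even_comm hB hd heven (iter_V hB hne hx (i + 1))
    have h2 := L_good hI ih
    rw [map_add, map_smul, ← Function.iterate_succ_apply' (L K B) i] at h2
    have h3 : F K B * (L K B)^[i + 1 + 1] x +
        (((((i + 1 : ℕ) : ℤ) + 1) * (h + ((i + 1 : ℕ) : ℤ)) : ℤ) : K) • (L K B)^[i + 1] x =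
        L K B (F K B * (L K B)^[i + 1] x) +
          (((i + 1 : ℤ) * (h + i) : ℤ) : K) • (L K B)^[i + 1] x := by
      rw [Function.iterate_succ_apply' (L K B) (i + 1), h1]
      push_cast
      module
    rw [h3]
    exact h2

lemma sl2_inj [CharZero K] (hB : ∀ l l', l ≠ l' → Disjoint (B l) (B l'))
    (hd : ∀ l, (B l).card = d)
    (heven : Even d) (hd0 : 1 ≤ d) {I : Submodule K (E K n)} (hI : Good B I) {h : ℤ} (hh : 0 < h)
    {t : ℤ} {x : E K n} (hxt : x ∈ A K n t)
    (hx : x ∈ V K B h) (hfx : F K B * x ∈ I) : x ∈ I := by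
  have h1 : ∀ i : ℕ, (L K B)^[i] x ∈ I → x ∈ I := by
    intro i
    induction i with
    | zero => intro h; simpa using h
    | succ i ih =>
      intro h2
      apply ih
      have h3 := sl2_key hB hd heven hd0 hI hx hfx i
      have h4 := (Submodule.add_mem_iff_right I (hI.U _ h2)).mp h3
      have h5 : ((((i : ℤ) + 1) * (h + i) : ℤ) : K) ≠ 0 := by
        rw [Int.cast_ne_zero]
        positivity
      exact (Submodule.smul_mem_iff I h5).mp h4
  apply h1 (t.toNat + 1)
  have h2 := iter_A hd hxt (t.toNat + 1)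
  rw [A_neg] at h2
  · rw [(Submodule.mem_bot K).mp h2]; exact I.zero_mem
  · have h3 : t ≤ t.toNat := Int.self_le_toNat t
    have h4 : (1 : ℤ) ≤ d := by exact_mod_cast hd0
    push_cast
    nlinarith [Int.natCast_nonneg t.toNat]

lemma pr_A {χ : Finset (Fin n) → Prop} {t : ℤ} {x : E K n} (hx : x ∈ A K n t) :
    pr χ x ∈ A K n t := by
  unfold A at hx
  induction hx using Submodule.span_induction with
  | mem x hx' =>
    obtain ⟨S, hS, rfl⟩ := hx'
    by_cases h : χ S
    · rw [pr_e_pos h]; exact e_mem' S hS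
    · rw [pr_e_neg h]; exact Submodule.zero_mem _
  | zero => simp
  | add x y _ _ hx hy => rw [map_add]; exact Submodule.add_mem _ hx hy
  | smul c x _ hx => rw [map_smul]; exact Submodule.smul_mem _ _ hx

lemma pr_V (h : ℤ) (x : E K n) : pr (fun S => H B S = h) x ∈ V K B h := by
  apply e_ind x
  · intro S
    by_cases hc : H B S = h
    · rw [pr_e_pos (χ := fun S => H B S = h) hc]
      exact Submodule.subset_span ⟨S, hc, rfl⟩
    · rw [pr_e_neg (χ := fun S => H B S = h) hc]; exact Submodule.zero_mem _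
  · simp
  · intro x y hx hy; rw [map_add]; exact Submodule.add_mem _ hx hy
  · intro c x hx; rw [map_smul]; exact Submodule.smul_mem _ _ hx

lemma exact_even [CharZero K] (hB : ∀ l l', l ≠ l' → Disjoint (B l) (B l'))
    (hd : ∀ l, (B l).card = d)
    (heven : Even d) (hd0 : 1 ≤ d) {I : Submodule K (E K n)} (hI : Good B I) {t : ℤ}
    (ht : t < m) {x : E K n} (hx : x ∈ A K n t) (hfx : F K B * x ∈ I) : x ∈ I := by
  have hne := fun l => nonempty_of hd hd0 l
  have hd2 : 2 ≤ d := by obtain ⟨c, hc⟩ := heven; omega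
  have hsum : x = ∑ h ∈ Finset.Icc (-(m : ℤ)) m, pr (fun S => H B S = h) x := by
    apply e_ind (P := fun x => x = ∑ h ∈ Finset.Icc (-(m : ℤ)) m, pr (fun S => H B S = h) x) x
    · intro S
      rw [Finset.sum_eq_single (H B S)]
      · exact (pr_e_pos (χ := fun S' => H B S' = H B S) rfl).symm
      · intro h _ hP
        exact pr_e_neg (χ := fun S' => H B S' = h) (fun h => hP h.symm)
      · intro h; exact absurd (Finset.mem_Icc.mpr (H_abs S)) h
    · simp
    · intro x y hx hy
      simp only [map_add, Finset.sum_add_distrib]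
      rw [← hx, ← hy]
    · intro c x hx
      simp only [map_smul]
      rw [← Finset.smul_sum, ← hx]
  rw [hsum]
  refine Submodule.sum_mem _ fun h _ => ?_
  by_cases hh : 0 < h
  · apply sl2_inj hB hd heven hd0 hI hh (pr_A hx) (pr_V h x)
    rw [F_pr (χ := fun S => H B S = h - 2)]
    · exact hI.P _ (insens_H _) _ hfx
    · intro l S hS
      change H B (B l ∪ S) = h - 2 ↔ H B S = h
      rw [H_block hB hne hS]
      constructor <;> intro <;> omega
  · have : pr (fun S => H B S = h) x = 0 := by
      apply pr_zero _ hx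
      intro S hS h'
      have h1 := H_lower hB hd hd2 S
      omega
    rw [this]
    exact Submodule.zero_mem _

end Blocks

end R687.GE
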