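import Mathlib
import Pool.Agent.R687.GE.Ops

/-! The special tuples: sums of disjoint monomials. -/

open Finset Module

namespace R687.GE

variable {K : Type*} [Field K] {n r : ℕ}

/-- the ideal generated by `f i`, `i ∈ J` -/
noncomputable def IJ (f : Fin r → E K n) (J : Finset (Fin r)) : Submodule K (E K n) :=
  ⨆ i ∈ J, LinearMap.range (LinearMap.mulLeft K (f i))

lemma mem_IJ {f : Fin r → E K n} {J : Finset (Fin r)} {i : Fin r} (hi : i ∈ J) (y : E K n) :
    f i * y ∈ IJ f J :=
  Submodule.mem_iSup_of_mem i (Submodule.mem_iSup_of_mem hi ⟨y, rfl⟩)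

lemma IJ_le {f : Fin r → E K n} {J : Finset (Fin r)} {W : Submodule K (E K n)}
    (h : ∀ i ∈ J, ∀ y, f i * y ∈ W) : IJ f J ≤ W := by
  refine iSup_le fun i => iSup_le fun hi => ?_
  rintro _ ⟨y, rfl⟩
  exact h i hi y

lemma IJ_insert (f : Fin r → E K n) (J : Finset (Fin r)) (i : Fin r) :
    IJ f (insert i J) = IJ f J ⊔ LinearMap.range (LinearMap.mulLeft K (f i)) := by
  unfold IJ
  rw [Finset.iSup_insert, sup_comm]

lemma IJ_G {d : Fin r → ℕ} {f : Fin r → E K n} (hf : ∀ i, f i ∈ A K n (d i))
    {J : Finset (Fin r)} {j : ℤ} {x : E K n} (hx : x ∈ IJ f J) (hx' : x ∈ A K n j) :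
    x ∈ G d f J j := by
  rw [← deg_of_mem hx']
  have h1 : IJ f J ≤ (G d f J j).comap (deg j) := by
    apply IJ_le
    intro i hi y
    rw [Submodule.mem_comap, deg_mul (hf i)]
    exact mem_G hi (deg_mem _ _)
  exact h1 hx

lemma G_IJ {d : Fin r → ℕ} {f : Fin r → E K n} {J : Finset (Fin r)} {j : ℤ} :
    G d f J j ≤ IJ f J :=
  G_le fun _ hi y _ => mem_IJ hi y

lemma exists_blocks (m : ℕ) (d : Fin r → ℕ) : ∃ N, ∀ n, N ≤ n →
    ∃ b : Fin r → Fin m → Finset (Fin n), (∀ i l, (b i l).card = d i) ∧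
      (∀ i l i' l', (i, l) ≠ (i', l') → Disjoint (b i l) (b i' l')) := by
  refine ⟨Fintype.card (Σ p : Fin r × Fin m, Fin (d p.1)), fun n hn => ?_⟩
  obtain ⟨g⟩ : Nonempty ((Σ p : Fin r × Fin m, Fin (d p.1)) ↪ Fin n) := by
    apply Function.Embedding.nonempty_of_card_le
    rwa [Fintype.card_fin]
  refine ⟨fun i l => univ.map ⟨fun x : Fin (d i) => g ⟨(i, l), x⟩, ?_⟩, ?_, ?_⟩
  · intro x y hxy
    have := g.injective hxy
    simpa using this
  · intro i l; simp
  · intro i l i' l' hne
    rw [Finset.disjoint_left]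
    intro x hx hx'
    simp only [Finset.mem_map, Function.Embedding.coeFn_mk, mem_univ, true_and] at hx hx'
    obtain ⟨a, rfl⟩ := hx
    obtain ⟨a', ha'⟩ := hx'
    have := g.injective ha'
    apply hne
    have h2 := congrArg Sigma.fst this
    exact h2.symm

section
variable {m : ℕ} {d : Fin r → ℕ} {b : Fin r → Fin m → Finset (Fin n)}

lemma special_good (hc : ∀ i l, (b i l).card = d i)
    (hb : ∀ i l i' l', (i, l) ≠ (i', l') → Disjoint (b i l) (b i' l'))
    {J : Finset (Fin r)} {i : Fin r} (hi : i ∉ J) :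
    Good (b i) (IJ (fun c => F K (b c)) J) := by
  have hf : ∀ c, F K (b c) ∈ A K n (d c) := fun c => F_mem _ (hc c)
  have hne : ∀ c ∈ J, ∀ l l', Disjoint (b i l) (b c l') := by
    intro c hcJ l l'
    apply hb
    intro h
    have : i = c := congrArg Prod.fst h
    rw [this] at hi
    exact hi hcJ
  constructor
  · have : IJ (fun c => F K (b c)) J ≤
        (IJ (fun c => F K (b c)) J).comap (LinearMap.mulLeft K (F K (b i))) := by
      apply IJ_le
      intro c hcJ y
      change F K (b i) * (F K (b c) * y) ∈ IJ (fun c => F K (b c)) J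
      rw [← mul_assoc, gcomm (hf i) (hf c), smul_mul_assoc, mul_assoc]
      exact Submodule.smul_mem _ _ (mem_IJ (f := fun c => F K (b c)) hcJ _)
    exact fun x hx => this hx
  · intro l
    have : IJ (fun c => F K (b c)) J ≤
        (IJ (fun c => F K (b c)) J).comap (dl (b i l)) := by
      apply IJ_le
      intro c hcJ y
      rw [Submodule.mem_comap, F_mul, map_sum]
      have h1 : ∑ l', dl (b i l) (e K n (b c l') * y) =
          F K (b c) * ((-1 : K) ^ (d i * d c) • dl (b i l) y) := by
        rw [F_mul]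
        refine Finset.sum_congr rfl fun l' _ => ?_
        rw [dl_mul (hne c hcJ l l'), hc, hc, mul_smul_comm]
      rw [h1]
      exact mem_IJ (f := fun c => F K (b c)) hcJ _
    exact fun x hx => this hx
  · intro χ hχ
    have : IJ (fun c => F K (b c)) J ≤
        (IJ (fun c => F K (b c)) J).comap (pr χ) := by
      apply IJ_le
      intro c hcJ y
      rw [Submodule.mem_comap]
      have h1 : pr χ (F K (b c) * y) = F K (b c) * pr χ y := by
        rw [F_mul, F_mul, map_sum]
        refine Finset.sum_congr rfl fun l' _ => ?_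
        apply pr_mul_e
        intro S hS
        exact hχ (b c l') (fun l => hne c hcJ l l') S hS
      rw [h1]
      exact mem_IJ (f := fun c => F K (b c)) hcJ _
    exact fun x hx => this hx

lemma special_even [CharZero K] (hd : ∀ i, 1 ≤ d i) (hc : ∀ i l, (b i l).card = d i)
    (hb : ∀ i l i' l', (i, l) ≠ (i', l') → Disjoint (b i l) (b i' l'))
    {J : Finset (Fin r)} {i : Fin r} (hi : i ∉ J) (he : Even (d i)) {j : ℤ} (hj : j - d i < m) :
    h d (fun c => F K (b c)) (insert i J) j =
      h d (fun c => F K (b c)) J j - h d (fun c => F K (b c)) J (j - d i) := by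
  have hf : ∀ c, F K (b c) ∈ A K n (d c) := fun c => F_mem _ (hc c)
  apply step_even_eq hf
  intro x hx hfx
  apply IJ_G hf _ hx
  refine exact_even (B := b i) ?_ (hc i) he (hd i) (special_good hc hb hi) hj hx
    (G_IJ hfx)
  intro l l' hll
  exact hb i l i l' (by simpa using hll)

lemma special_odd (h2 : (2 : K) ≠ 0) (hc : ∀ i l, (b i l).card = d i)
    (hb : ∀ i l i' l', (i, l) ≠ (i', l') → Disjoint (b i l) (b i' l'))
    {J : Finset (Fin r)} {i : Fin r} (hi : i ∉ J) (he : Odd (d i)) {j : ℤ} (hj : j - d i < m) :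
    h d (fun c => F K (b c)) J j =
      h d (fun c => F K (b c)) (insert i J) j +
        h d (fun c => F K (b c)) (insert i J) (j - d i) := by
  have hf : ∀ c, F K (b c) ∈ A K n (d c) := fun c => F_mem _ (hc c)
  apply step_odd_eq h2 hf _ _ he
  intro x hx hfx
  apply IJ_G hf _ hx
  rw [IJ_insert]
  refine exact_odd (B := b i) ?_ (hc i) he (special_good hc hb hi) hj hx
    (G_IJ hfx)
  intro l l' hll
  exact hb i l i l' (by simpa using hll)

end

end R687.GE
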