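import Mathlib
import Pool.Agent.R687.GE.Special
import Pool.Agent.R687.GE.Series

/-! The asymptotic Hilbert series of generic ideals in exterior algebras. -/

open Finset Module PowerSeries

namespace R687.GE

variable {K : Type*} [Field K] {n r : ℕ}

/-- generic tuples: every graded piece of the quotient has the smallest possible dimension -/
def IsGeneric (d : Fin r → ℕ) (f : Fin r → E K n) : Prop :=
  (∀ i, f i ∈ Piece K n (d i)) ∧
    ∀ g : Fin r → E K n, (∀ i, g i ∈ Piece K n (d i)) → ∀ k, hilb f k ≤ hilb g k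

/-- the Hilbert series `q_n(t)` of the quotient, as a power series -/
noncomputable def hilbSeries (f : Fin r → E K n) : PowerSeries ℤ :=
  PowerSeries.mk fun k => (hilb f k : ℤ)

/-- The limit formula for the field `K` and the degrees `d`. -/
def LimitFormula (K : Type*) [Field K] (d : Fin r → ℕ) : Prop :=
  ∀ k, ∃ N, ∀ n ≥ N, ∀ f : Fin r → E K n, IsGeneric d f →
    coeff k (hilbSeries f * invOfUnit ((1 + X) ^ n) 1) = coeff k (∏ i, Pfac (d i))

/-- partial Hilbert series -/
noncomputable def QJ (d : Fin r → ℕ) (f : Fin r → E K n) (J : Finset (Fin r)) : PowerSeries ℤ :=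
  PowerSeries.mk fun k => h d f J k

lemma hom_iff {d : ℕ} {f : E K n} : f ∈ Piece K n d ↔ f ∈ A K n d := by rw [A_nat]

lemma hilbSeries_eq {d : Fin r → ℕ} {f : Fin r → E K n} (hf : ∀ i, f i ∈ A K n (d i)) :
    hilbSeries f = QJ d f univ := by
  ext k
  unfold hilbSeries QJ
  rw [coeff_mk, coeff_mk, hilb_eq hf]

lemma coeff_QJ (d : Fin r → ℕ) (f : Fin r → E K n) (J : Finset (Fin r)) (j : ℕ) :
    coeff j (QJ d f J) = h d f J j := by unfold QJ; rw [coeff_mk]

lemma coeff_shift {d : Fin r → ℕ} {f : Fin r → E K n} (hf : ∀ i, f i ∈ A K n (d i))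
    (J : Finset (Fin r)) (c j : ℕ) :
    coeff j (X ^ c * QJ d f J) = h d f J (j - c) := by
  rw [coeff_X_pow_mul']
  split_ifs with hc
  · rw [coeff_QJ]
    congr 1
    push_cast [Nat.cast_sub hc]
    ring
  · rw [h_neg d hf]; omega

lemma coeff_one_add_X_pow' (n j : ℕ) : coeff j ((1 + X : PowerSeries ℤ) ^ n) = n.choose j := by
  have h1 : ((1 + X : PowerSeries ℤ) ^ n) = (((1 + Polynomial.X : Polynomial ℤ) ^ n : Polynomial ℤ)
      : PowerSeries ℤ) := by
    simp
  rw [h1, Polynomial.coeff_coe, Polynomial.coeff_one_add_X_pow]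

lemma QJ_empty (d : Fin r → ℕ) (f : Fin r → E K n) : QJ d f ∅ = (1 + X) ^ n := by
  ext j
  rw [coeff_QJ, h_empty, coeff_one_add_X_pow']

lemma lower_step (h2 : (2 : K) ≠ 0) {d : Fin r → ℕ} (hd : ∀ i, 1 ≤ d i) {f : Fin r → E K n}
    (hf : ∀ i, f i ∈ A K n (d i)) (J : Finset (Fin r)) (i : Fin r) :
    Le (QJ d f J) (QJ d f (insert i J) * Afac (d i)) := by
  by_cases he : Even (d i)
  · have h1 : Le ((1 - X ^ (d i)) * QJ d f J) (QJ d f (insert i J)) := by
      intro j
      rw [sub_mul, one_mul, map_sub, coeff_shift hf, coeff_QJ, coeff_QJ]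
      exact step_general hf J i j
    have h3 := h1.mul (Afac_nonneg (hd i))
    have h4 : (1 - X ^ (d i)) * QJ d f J * Afac (d i) = QJ d f J := by
      have h5 := Afac_mul_Pfac (hd i)
      unfold Pfac at h5
      rw [if_pos he] at h5
      linear_combination (QJ d f J) * h5
    rwa [h4] at h3
  · intro j
    have ho : Odd (d i) := Nat.not_even_iff_odd.mp he
    unfold Afac
    rw [if_neg he, mul_add, mul_one, mul_comm (QJ d f (insert i J)) (X ^ d i), map_add,
      coeff_shift hf, coeff_QJ, coeff_QJ]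
    exact step_odd h2 hf J i ho j

lemma lower_all (h2 : (2 : K) ≠ 0) {d : Fin r → ℕ} (hd : ∀ i, 1 ≤ d i) {f : Fin r → E K n}
    (hf : ∀ i, f i ∈ A K n (d i)) (J : Finset (Fin r)) :
    Le ((1 + X) ^ n) (QJ d f J * AA d J) := by
  induction J using Finset.induction_on with
  | empty => rw [QJ_empty]; unfold AA; simp only [Finset.prod_empty, mul_one]; exact fun _ => le_rfl
  | insert i J hi ih =>
    refine ih.trans ?_
    have := (lower_step h2 hd hf J i).mul (AA_nonneg hd J)
    rw [AA_insert hi]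
    rwa [mul_assoc] at this

section
variable {m : ℕ} {d : Fin r → ℕ} {b : Fin r → Fin m → Finset (Fin n)}

lemma special_step (h2 : (2 : K) ≠ 0) (hd : ∀ i, 1 ≤ d i) (hc : ∀ i l, (b i l).card = d i)
    (hb : ∀ i l i' l', (i, l) ≠ (i', l') → Disjoint (b i l) (b i' l'))
    (hK : CharZero K ∨ ∀ i, Odd (d i)) {k : ℕ} (hk : k < m)
    {J : Finset (Fin r)} {i : Fin r} (hi : i ∉ J) :
    EqUp k (QJ d (fun c => F K (b c)) J)
      (QJ d (fun c => F K (b c)) (insert i J) * Afac (d i)) := by
  have hf : ∀ c, F K (b c) ∈ A K n (d c) := fun c => F_mem _ (hc c)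
  by_cases he : Even (d i)
  · have : CharZero K := by
      rcases hK with h | h
      · exact h
      · exact absurd he (Nat.not_even_iff_odd.mpr (h i))
    have h1 : EqUp k (QJ d (fun c => F K (b c)) (insert i J))
        ((1 - X ^ (d i)) * QJ d (fun c => F K (b c)) J) := by
      intro j hj
      rw [sub_mul, one_mul, map_sub, coeff_shift hf, coeff_QJ, coeff_QJ]
      exact special_even hd hc hb hi he (by omega)
    have h3 := h1.mul (Afac (d i))
    have h4 : (1 - X ^ (d i)) * QJ d (fun c => F K (b c)) J * Afac (d i) =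
        QJ d (fun c => F K (b c)) J := by
      have h5 := Afac_mul_Pfac (hd i)
      unfold Pfac at h5
      rw [if_pos he] at h5
      linear_combination (QJ d (fun c => F K (b c)) J) * h5
    rw [h4] at h3
    exact h3.symm
  · intro j hj
    have ho : Odd (d i) := Nat.not_even_iff_odd.mp he
    unfold Afac
    rw [if_neg he, mul_add, mul_one,
      mul_comm (QJ d (fun c => F K (b c)) (insert i J)) (X ^ d i), map_add,
      coeff_shift hf, coeff_QJ, coeff_QJ]
    exact special_odd h2 hc hb hi ho (by omega)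

lemma special_all (h2 : (2 : K) ≠ 0) (hd : ∀ i, 1 ≤ d i) (hc : ∀ i l, (b i l).card = d i)
    (hb : ∀ i l i' l', (i, l) ≠ (i', l') → Disjoint (b i l) (b i' l'))
    (hK : CharZero K ∨ ∀ i, Odd (d i)) {k : ℕ} (hk : k < m)
    (J : Finset (Fin r)) :
    EqUp k ((1 + X) ^ n) (QJ d (fun c => F K (b c)) J * AA d J) := by
  induction J using Finset.induction_on with
  | empty => rw [QJ_empty]; unfold AA; simp only [Finset.prod_empty, mul_one]; exact fun _ _ => rfl
  | insert i J hi ih =>
    refine ih.trans ?_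
    have := (special_step h2 hd hc hb hK hk hi).mul (AA d J)
    rw [AA_insert hi]
    rwa [mul_assoc] at this

end

lemma limit_pos (h2 : (2 : K) ≠ 0) {d : Fin r → ℕ} (hd : ∀ i, 1 ≤ d i)
    (hK : CharZero K ∨ ∀ i, Odd (d i)) : LimitFormula K d := by
  intro k
  obtain ⟨N, hN⟩ := exists_blocks (k + 1) d
  refine ⟨N, fun n hn f hf => ?_⟩
  obtain ⟨b, hc, hb⟩ := hN n hn
  have hfA : ∀ i, f i ∈ A K n (d i) := fun i => hom_iff.mp (hf.1 i)
  have hsA : ∀ c, F K (b c) ∈ A K n (d c) := fun c => F_mem _ (hc c)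
  have h3 := hf.2 (fun c => F K (b c)) (fun i => hom_iff.mpr (hsA i))
  have h4 : Le (QJ d f univ) (QJ d (fun c => F K (b c)) univ) := by
    intro j
    rw [coeff_QJ, coeff_QJ, ← hilb_eq hfA, ← hilb_eq hsA]
    exact_mod_cast h3 j
  have h5 := lower_all h2 hd hfA univ
  have h6 := special_all (K := K) h2 hd hc hb hK (k := k) (by omega) univ
  have h7 : EqUp k (QJ d f univ) (QJ d (fun c => F K (b c)) univ) :=
    squeeze h4 (AA_nonneg hd _) (PP_const hd _) (fun j hj => by rw [← h6 j hj]; exact h5 j)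
  have h8 : EqUp k (QJ d f univ * AA d univ) ((1 + X) ^ n) :=
    (h7.mul (AA d univ)).trans h6.symm
  have h9 := (h8.mul (PP d univ)).mul (invOfUnit ((1 + X) ^ n) 1)
  have h10 : (1 + X : PowerSeries ℤ) ^ n * invOfUnit ((1 + X) ^ n) 1 = 1 :=
    mul_invOfUnit _ _ (by simp)
  have h11 : QJ d f univ * AA d univ * PP d univ * invOfUnit ((1 + X) ^ n) 1 =
      hilbSeries f * invOfUnit ((1 + X) ^ n) 1 := by
    rw [hilbSeries_eq hfA, mul_assoc (QJ d f univ), AA_PP hd, mul_one]
  have h12 : (1 + X : PowerSeries ℤ) ^ n * PP d univ * invOfUnit ((1 + X) ^ n) 1 =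
      ∏ i, Pfac (d i) := by
    have : PP d univ = ∏ i, Pfac (d i) := rfl
    rw [← this]
    linear_combination (PP d univ) * h10
  rw [h11, h12] at h9
  exact h9 k le_rfl

end R687.GE
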