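import Mathlib
import Pool.Agent.R687.GE.Main

/-! Existence of generic tuples, and failure of the formula in positive characteristic. -/

open Finset Module PowerSeries

namespace R687.GE

variable {K : Type*} [Field K] {n r : ℕ}

lemma rank_pencil {X Y : Type*} [AddCommGroup X] [Module K X] [FiniteDimensional K X]
    [AddCommGroup Y] [Module K Y] [FiniteDimensional K Y] (A B : X →ₗ[K] Y) :
    {c : K | finrank K (LinearMap.range (A + c • B)) < finrank K (LinearMap.range A)}.Finite := by
  obtain ⟨s, hs⟩ := LinearMap.exists_rightInverse_of_surjective A.rangeRestrict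
    A.range_rangeRestrict
  obtain ⟨π, hπ⟩ := LinearMap.exists_leftInverse_of_injective (LinearMap.range A).subtype
    (Submodule.ker_subtype _)
  set N : End K (LinearMap.range A) := π ∘ₗ B ∘ₗ s with hN
  have hfin : {c : K | N.HasEigenvalue (-c⁻¹)}.Finite := by
    have h1 : {μ : K | N.HasEigenvalue μ}.Finite := N.finite_hasEigenvalue
    refine h1.preimage ?_
    intro a _ b _ hab
    simpa using hab
  refine hfin.subset ?_
  intro c hc
  by_contra hcon
  apply absurd hc
  rw [Set.mem_ofPred_eq, not_lt]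
  set T : LinearMap.range A →ₗ[K] Y := (A + c • B) ∘ₗ s with hT
  have hAs : ∀ v, A (s v) = v := by
    intro v
    have := LinearMap.congr_fun hs v
    exact congrArg Subtype.val this
  have hπT : ∀ v, π (T v) = v + c • N v := by
    intro v
    rw [hT, hN]
    simp only [LinearMap.comp_apply, LinearMap.add_apply, LinearMap.smul_apply, map_add, map_smul]
    rw [hAs]
    congr 1
    exact LinearMap.congr_fun hπ v
  have hinj : Function.Injective T := by
    rw [← LinearMap.ker_eq_bot, LinearMap.ker_eq_bot']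
    intro v hv
    by_contra hv0
    apply hcon
    have h1 : v + c • N v = 0 := by rw [← hπT, hv, map_zero]
    have hc0 : c ≠ 0 := by
      rintro rfl
      apply hv0
      simpa using h1
    have h2 : N v = (-c⁻¹) • v := by
      have h3 : c • N v = - v := eq_neg_of_add_eq_zero_right h1
      have h4 : N v = c⁻¹ • (c • N v) := by rw [smul_smul, inv_mul_cancel₀ hc0, one_smul]
      rw [h4, h3, neg_smul, smul_neg]
    exact Module.End.hasEigenvalue_of_hasEigenvector ⟨Module.End.mem_eigenspace_iff.mpr h2, hv0⟩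
  have h5 : finrank K (LinearMap.range T) = finrank K (LinearMap.range A) :=
    LinearMap.finrank_range_of_inj hinj
  rw [← h5]
  apply Submodule.finrank_mono
  rintro _ ⟨v, rfl⟩
  exact ⟨s v, rfl⟩

/-- the map whose range is the graded piece of the ideal -/
noncomputable def Psi (d : Fin r → ℕ) (k : ℤ) (f : Fin r → E K n) :
    (Fin r → E K n) →ₗ[K] E K n :=
  ∑ i, LinearMap.mulLeft K (f i) ∘ₗ deg (k - d i) ∘ₗ LinearMap.proj i

lemma Psi_apply (d : Fin r → ℕ) (k : ℤ) (f y : Fin r → E K n) :
    Psi d k f y = ∑ i, f i * deg (k - d i) (y i) := by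
  unfold Psi
  rw [LinearMap.sum_apply]
  rfl

lemma range_Psi (d : Fin r → ℕ) (k : ℤ) (f : Fin r → E K n) :
    LinearMap.range (Psi d k f) = G d f univ k := by
  apply le_antisymm
  · rintro _ ⟨y, rfl⟩
    rw [Psi_apply]
    exact Submodule.sum_mem _ fun i _ => mem_G (mem_univ i) (deg_mem _ _)
  · apply G_le
    intro i _ y hy
    refine ⟨Pi.single i y, ?_⟩
    rw [Psi_apply, Finset.sum_eq_single i]
    · rw [Pi.single_eq_same, deg_of_mem hy]
    · intro j _ hj
      rw [Pi.single_eq_of_ne hj]
      simp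
    · intro h; exact absurd (mem_univ _) h

lemma Psi_add_smul (d : Fin r → ℕ) (k : ℤ) (f g : Fin r → E K n) (c : K) :
    Psi d k (f + c • g) = Psi d k f + c • Psi d k g := by
  refine LinearMap.ext fun y => ?_
  simp only [LinearMap.add_apply, LinearMap.smul_apply, Psi_apply, Pi.add_apply, Pi.smul_apply,
    add_mul, smul_mul_assoc, Finset.sum_add_distrib, Finset.smul_sum]

lemma hilb_rank {d : Fin r → ℕ} {f : Fin r → E K n} (hf : ∀ i, f i ∈ A K n (d i)) (k : ℕ) :
    (hilb f k : ℤ) = n.choose k - finrank K (LinearMap.range (Psi d k f)) := by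
  rw [hilb_eq hf, range_Psi]
  unfold h
  rw [finrank_A]

lemma pencil [Infinite K] {d : Fin r → ℕ} {f g : Fin r → E K n} (hf : ∀ i, f i ∈ A K n (d i))
    (hg : ∀ i, g i ∈ A K n (d i)) :
    ∃ u : Fin r → E K n, (∀ i, u i ∈ A K n (d i)) ∧ ∀ k ≤ n, hilb u k ≤ hilb f k ∧
      hilb u k ≤ hilb g k := by
  have h1 : ∀ k : ℕ, {c : K | finrank K (LinearMap.range (Psi d k f + c • Psi d k (g - f))) <
      finrank K (LinearMap.range (Psi d k f))}.Finite := fun k => rank_pencil _ _
  have h2 : ∀ k : ℕ, {c : K | finrank K (LinearMap.range (Psi d k f + c • Psi d k (g - f))) <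
      finrank K (LinearMap.range (Psi d k g))}.Finite := by
    intro k
    have h3 : {c : K | finrank K (LinearMap.range (Psi d k g + c • Psi d k (g - f))) <
      finrank K (LinearMap.range (Psi d k g))}.Finite := rank_pencil _ _
    have h4 : {c : K | finrank K (LinearMap.range (Psi d k f + c • Psi d k (g - f))) <
      finrank K (LinearMap.range (Psi d k g))} = (fun c => c - 1) ⁻¹'
      {c : K | finrank K (LinearMap.range (Psi d k g + c • Psi d k (g - f))) <
      finrank K (LinearMap.range (Psi d k g))} := by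
      ext c
      simp only [Set.mem_ofPred_eq, Set.mem_preimage]
      have h5 : Psi d k f + c • Psi d k (g - f) = Psi d k g + (c - 1) • Psi d k (g - f) := by
        rw [← Psi_add_smul, ← Psi_add_smul]
        congr 1
        module
      rw [h5]
    rw [h4]
    exact h3.preimage (fun a _ b _ hab => by simpa using hab)
  have h3 : (⋃ k ∈ Finset.range (n + 1),
      ({c : K | finrank K (LinearMap.range (Psi d k f + c • Psi d k (g - f))) <
        finrank K (LinearMap.range (Psi d k f))} ∪
      {c : K | finrank K (LinearMap.range (Psi d k f + c • Psi d k (g - f))) <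
        finrank K (LinearMap.range (Psi d k g))})).Finite := by
    apply Set.Finite.biUnion (Finset.finite_toSet _)
    intro k _
    exact (h1 k).union (h2 k)
  obtain ⟨c, hc⟩ := h3.infinite_compl.nonempty
  refine ⟨f + c • (g - f), ?_, ?_⟩
  · intro i
    exact Submodule.add_mem _ (hf i) (Submodule.smul_mem _ _ (Submodule.sub_mem _ (hg i) (hf i)))
  · intro k hk
    simp only [Set.mem_compl_iff, Set.mem_iUnion, not_exists] at hc
    have h4 := hc k (Finset.mem_range.mpr (by omega))
    rw [Set.mem_union, not_or, Set.mem_ofPred_eq, Set.mem_ofPred_eq, not_lt, not_lt,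
      ← Psi_add_smul] at h4
    have hu : ∀ i, (f + c • (g - f)) i ∈ A K n (d i) := fun i =>
      Submodule.add_mem _ (hf i) (Submodule.smul_mem _ _ (Submodule.sub_mem _ (hg i) (hf i)))
    have h5 := hilb_rank hu k
    have h6 := hilb_rank hf k
    have h7 := hilb_rank hg k
    constructor <;> omega

lemma exists_generic [Infinite K] (d : Fin r → ℕ) : ∃ f : Fin r → E K n, IsGeneric d f := by
  classical
  have hex : ∃ s : ℕ, ∃ f : Fin r → E K n, (∀ i, f i ∈ A K n (d i)) ∧
      ∑ k ∈ Finset.range (n + 1), hilb f k = s :=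
    ⟨_, 0, fun i => Submodule.zero_mem _, rfl⟩
  obtain ⟨f, hf, hs⟩ := Nat.find_spec hex
  refine ⟨f, fun i => hom_iff.mpr (hf i), ?_⟩
  intro g hg k
  have hg' : ∀ i, g i ∈ A K n (d i) := fun i => hom_iff.mp (hg i)
  by_cases hk : k ≤ n
  · obtain ⟨u, hu, hu'⟩ := pencil hf hg'
    have h1 : Nat.find hex ≤ ∑ k ∈ Finset.range (n + 1), hilb u k :=
      Nat.find_min' hex ⟨u, hu, rfl⟩
    rw [← hs] at h1
    have h2 : hilb f k ≤ hilb u k := by
      by_contra hlt
      push Not at hlt
      have h3 : ∑ k ∈ Finset.range (n + 1), hilb u k < ∑ k ∈ Finset.range (n + 1), hilb f k :=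
        Finset.sum_lt_sum (fun k hk => (hu' k (by have := Finset.mem_range.mp hk; omega)).1)
          ⟨k, Finset.mem_range.mpr (by omega), hlt⟩
      omega
    exact h2.trans (hu' k hk).2
  · have h1 := hilb_rank hf k
    rw [Nat.choose_eq_zero_of_lt (by omega)] at h1
    omega

/-! ### positive characteristic -/

lemma even_commute {d : ℕ} (hd : Even d) {x y : E K n} (hx : x ∈ A K n d) (hy : y ∈ A K n d) :
    Commute x y := by
  have := gcomm hx hy
  have h3 : ((-1 : K) ^ ((d : ℤ) * d)) = 1 := by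
    have : Even ((d : ℤ) * d) := by
      have := hd.mul_left d
      exact_mod_cast this
    exact this.neg_one_zpow
  rw [h3, one_smul] at this
  exact this

lemma pow_char_zero {p : ℕ} [hp : Fact p.Prime] [CharP K p] {d : ℕ} (hd : Even d) (h1 : 1 ≤ d)
    {f : E K n} (hf : f ∈ A K n d) : f ^ p = 0 := by
  have : CharP (E K n) p :=
    charP_of_injective_algebraMap (algebraMap K (E K n)).injective p
  unfold A at hf
  suffices h : f ∈ A K n d ∧ f ^ p = 0 from h.2
  induction hf using Submodule.span_induction with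
  | mem x hx =>
    obtain ⟨S, hS, rfl⟩ := hx
    refine ⟨e_mem' S hS, ?_⟩
    have h2 : e K n S * e K n S = 0 := by
      apply e_mul_ndisj
      rw [disjoint_self, Finset.bot_eq_empty, ← Finset.card_eq_zero]
      simp only [Set.mem_ofPred_eq] at hS
      omega
    obtain ⟨q, hq⟩ : ∃ q, p = q + 2 := ⟨p - 2, by have := hp.out.two_le; omega⟩
    rw [hq, pow_add, pow_two, h2, mul_zero]
  | zero => exact ⟨Submodule.zero_mem _, zero_pow hp.out.ne_zero⟩
  | add x y _ _ hx hy =>
    refine ⟨Submodule.add_mem _ hx.1 hy.1, ?_⟩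
    rw [add_pow_char_of_commute p (even_commute hd hx.1 hy.1), hx.2, hy.2, add_zero]
  | smul c x _ hx =>
    refine ⟨Submodule.smul_mem _ _ hx.1, ?_⟩
    rw [smul_pow, hx.2, smul_zero]

lemma pow_mem_A {d : ℕ} {f : E K n} (hf : f ∈ A K n d) (i : ℕ) : f ^ i ∈ A K n (d * i) := by
  induction i with
  | zero =>
    rw [pow_zero]
    have h1 : (1 : E K n) ∈ Piece K n 0 := one_mem_piece
    rw [← A_nat] at h1
    simpa using h1
  | succ i ih =>
    rw [pow_succ]
    have := A_mul ih hf
    rwa [show (d : ℤ) * i + d = d * ((i + 1 : ℕ) : ℤ) by push_cast; ring] at this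

lemma EqUp.le_of {k : ℕ} {φ ψ : PowerSeries ℤ} (h : EqUp k φ ψ) : ∀ j ≤ k, coeff j φ ≤ coeff j ψ :=
  fun j hj => (h j hj).le

lemma limit_neg [Infinite K] (h2 : (2 : K) ≠ 0) {d : Fin r → ℕ} (hd : ∀ i, 1 ≤ d i)
    {p : ℕ} [hp : Fact p.Prime] [CharP K p] {i₀ : Fin r} (he : Even (d i₀)) :
    ¬ LimitFormula K d := by
  intro hlim
  set k₀ := d i₀ * p with hk₀
  choose N hN using hlim
  set n := (Finset.range (k₀ + 1)).sup N with hn
  have hNn : ∀ k ≤ k₀, N k ≤ n := fun k hk =>
    Finset.le_sup (f := N) (Finset.mem_range.mpr (by omega))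
  obtain ⟨f, hf⟩ := exists_generic (K := K) (n := n) d
  have hfA : ∀ i, f i ∈ A K n (d i) := fun i => hom_iff.mp (hf.1 i)
  have h3 : EqUp k₀ (hilbSeries f * invOfUnit ((1 + X) ^ n) 1) (∏ i, Pfac (d i)) :=
    fun k hk => hN k n (hNn k hk) f hf
  have h10 : (1 + X : PowerSeries ℤ) ^ n * invOfUnit ((1 + X) ^ n) 1 = 1 :=
    mul_invOfUnit _ _ (by simp)
  have h4 : EqUp k₀ (QJ d f univ * AA d univ) ((1 + X) ^ n) := by
    have h5 := (h3.mul ((1 + X) ^ n)).mul (AA d univ)
    have h6 : hilbSeries f * invOfUnit ((1 + X) ^ n) 1 * (1 + X) ^ n * AA d univ =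
        QJ d f univ * AA d univ := by
      rw [hilbSeries_eq hfA]
      linear_combination (QJ d f univ * AA d univ) * h10
    have h7 : (∏ i, Pfac (d i)) * (1 + X : PowerSeries ℤ) ^ n * AA d univ = (1 + X) ^ n := by
      have h8 := AA_PP hd univ
      have : PP d univ = ∏ i, Pfac (d i) := rfl
      rw [← this]
      linear_combination ((1 + X : PowerSeries ℤ) ^ n) * h8
    rwa [h6, h7] at h5
  set J : Finset (Fin r) := univ.erase i₀ with hJ
  have hins : insert i₀ J = univ := Finset.insert_erase (mem_univ _)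
  have hi₀ : i₀ ∉ J := Finset.notMem_erase _ _
  have h5 := lower_step h2 hd hfA J i₀
  rw [hins] at h5
  have h6 := lower_all h2 hd hfA J
  have h7 : AA d univ = Afac (d i₀) * AA d J := by rw [← hins]; exact AA_insert hi₀
  have h8 : EqUp k₀ (QJ d f J) (QJ d f univ * Afac (d i₀)) := by
    refine squeeze h5 (AA_nonneg hd J) (PP_const hd J) ?_
    intro j hj
    have h9 := h4 j hj
    rw [h7, ← mul_assoc] at h9
    rw [h9]
    exact h6 j
  have h9 : EqUp k₀ (QJ d f univ) ((1 - X ^ (d i₀)) * QJ d f J) := by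
    have h11 := h8.mul (1 - X ^ (d i₀))
    have h12 : QJ d f univ * Afac (d i₀) * (1 - X ^ (d i₀)) = QJ d f univ := by
      have h5 := Afac_mul_Pfac (hd i₀)
      unfold Pfac at h5
      rw [if_pos he] at h5
      linear_combination (QJ d f univ) * h5
    rw [h12, mul_comm] at h11
    exact h11.symm
  have hex : ∀ j : ℕ, j ≤ k₀ → ∀ x ∈ A K n (j - d i₀), f i₀ * x ∈ G d f J j →
      x ∈ G d f J (j - d i₀) := by
    intro j hj
    apply exact_of_eq hfA J i₀ j
    rw [hins]
    have := h9 j hj
    rwa [sub_mul, one_mul, map_sub, coeff_shift hfA, coeff_QJ, coeff_QJ] at this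
  have hpow : f i₀ ^ p = 0 := pow_char_zero he (hd i₀) (hfA i₀)
  have hdesc : ∀ i : ℕ, i ≤ p → f i₀ ^ (p - i) ∈ G d f J (d i₀ * (p - i : ℕ)) := by
    intro i
    induction i with
    | zero =>
      intro _
      rw [Nat.sub_zero, hpow]
      exact Submodule.zero_mem _
    | succ i ih =>
      intro hi
      have h12 := ih (by omega)
      obtain ⟨q, hq⟩ : ∃ q, p - i = q + 1 := ⟨p - i - 1, by omega⟩
      have hq' : p - (i + 1) = q := by omega
      rw [hq, pow_succ'] at h12
      rw [hq']
      have h13 : d i₀ * (q + 1) ≤ k₀ := Nat.mul_le_mul_left _ (by omega)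
      have h14 := hex (d i₀ * (q + 1)) h13 (f i₀ ^ q) (by
        have := pow_mem_A (hfA i₀) q
        rwa [show (((d i₀ * (q + 1) : ℕ) : ℤ) - d i₀) = d i₀ * q by push_cast; ring]) (by
        rwa [show (((d i₀ * (q + 1) : ℕ) : ℤ)) = d i₀ * ((q + 1 : ℕ) : ℤ) by push_cast; ring])
      rwa [show (((d i₀ * (q + 1) : ℕ) : ℤ) - d i₀) = d i₀ * q by push_cast; ring] at h14
  have h15 := hdesc p le_rfl
  rw [Nat.sub_self, pow_zero, Nat.cast_zero, mul_zero] at h15
  have h16 : G d f J 0 ≤ ⊥ := by
    apply G_le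
    intro i _ y hy
    rw [A_neg (by have := hd i; omega)] at hy
    rw [(Submodule.mem_bot K).mp hy, mul_zero]
    exact Submodule.zero_mem _
  have h17 : (1 : E K n) = 0 := (Submodule.mem_bot K).mp (h16 h15)
  exact one_ne_zero h17

end R687.GE
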